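import Mathlib
import Pool.Agent.U980.AD.Codim

/-!
# Forms on one space, tensors, and maps between spaces of endomorphisms
-/

set_option autoImplicit false
set_option linter.unusedSectionVars false

namespace Pool.Agent.U980.MF

open Module Pool.Agent.Y114.RM Pool.Agent.Y114.TF Pool.Agent.R913.Adj

/-- Multilinear forms of degree `2 m` on `V`. -/
abbrev Form (k : Type) [Field k] (V : Type) [AddCommGroup V] [Module k V] (m : ℕ) : Type :=
  MultilinearMap k (fun _ : Fin (2 * m) => V) k

section forms

variable {k : Type} [Field k] {V : Type} [AddCommGroup V] [Module k V]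

/-- `X` kills the form `φ`, as an element of the Lie algebra. -/
def Kills (X : End k V) {m : ℕ} (φ : Form k V m) : Prop :=
  ∀ v, ∑ l, φ (Function.update v l (X (v l))) = 0

/-- `φ` is fixed by a subgroup of finite index, up to the `m`-th power of the multiplier `χ`. -/
def IsTate {Γ : Type} [Group Γ] (ρ : Representation k Γ V) (χ : Γ →* k) {m : ℕ} (φ : Form k V m) :
    Prop :=
  ∃ Δ : Subgroup Γ, Δ.FiniteIndex ∧ ∀ g ∈ Δ, ∀ v, φ (fun l => ρ g (v l)) = χ g ^ m * φ v

theorem Kills.add {X Y : End k V} {m : ℕ} {φ : Form k V m} (hX : Kills X φ) (hY : Kills Y φ) :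
    Kills (X + Y) φ := by
  intro v
  have h : ∀ l, φ (Function.update v l ((X + Y) (v l))) =
      φ (Function.update v l (X (v l))) + φ (Function.update v l (Y (v l))) := fun l => by
    rw [LinearMap.add_apply, φ.map_update_add]
  rw [Finset.sum_congr rfl fun l _ => h l, Finset.sum_add_distrib, hX v, hY v, add_zero]

theorem Kills.smul {X : End k V} {m : ℕ} {φ : Form k V m} (hX : Kills X φ) (c : k) :
    Kills (c • X) φ := by
  intro v
  have h : ∀ l, φ (Function.update v l ((c • X) (v l))) = c * φ (Function.update v l (X (v l))) :=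
    fun l => by
    rw [LinearMap.smul_apply, φ.map_update_smul, smul_eq_mul]
  rw [Finset.sum_congr rfl fun l _ => h l, ← Finset.mul_sum, hX v, mul_zero]

theorem Kills.zero {m : ℕ} (φ : Form k V m) : Kills (0 : End k V) φ := by
  intro v
  refine Finset.sum_eq_zero fun l _ => ?_
  rw [LinearMap.zero_apply]
  exact φ.map_coord_zero l (Function.update_self _ _ _)

theorem Kills.form_add {X : End k V} {m : ℕ} {φ ψ : Form k V m} (hφ : Kills X φ) (hψ : Kills X ψ) :
    Kills X (φ + ψ) := by
  intro v
  have h : ∀ l, (φ + ψ) (Function.update v l (X (v l))) =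
      φ (Function.update v l (X (v l))) + ψ (Function.update v l (X (v l))) := fun l => rfl
  rw [Finset.sum_congr rfl fun l _ => h l, Finset.sum_add_distrib, hφ v, hψ v, add_zero]

theorem Kills.form_smul {X : End k V} {m : ℕ} {φ : Form k V m} (hφ : Kills X φ) (c : k) :
    Kills X (c • φ) := by
  intro v
  have h : ∀ l, (c • φ) (Function.update v l (X (v l))) =
      c * φ (Function.update v l (X (v l))) := fun l => rfl
  rw [Finset.sum_congr rfl fun l _ => h l, ← Finset.mul_sum, hφ v, mul_zero]

theorem Kills.form_zero (X : End k V) {m : ℕ} : Kills X (0 : Form k V m) := by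
  intro v
  exact Finset.sum_eq_zero fun l _ => rfl

/-- The derivation by a bracket. -/
theorem Kills.bracket {X Y : End k V} {m : ℕ} {φ : Form k V m} (hX : Kills X φ) (hY : Kills Y φ) :
    Kills (X * Y - Y * X) φ := by
  classical
  intro v
  have hd : ∀ (A B : End k V) (l : Fin (2 * m)),
      ∑ l', φ (Function.update (Function.update v l (A (v l))) l'
        (B (Function.update v l (A (v l)) l'))) =
      φ (Function.update v l (B (A (v l)))) + ∑ l' ∈ Finset.univ.erase l,
        φ (Function.update (Function.update v l (A (v l))) l' (B (v l'))) := by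
    intro A B l
    rw [← Finset.add_sum_erase _ _ (Finset.mem_univ l), Function.update_self,
      Function.update_idem]
    congr 1
    refine Finset.sum_congr rfl fun l' hl' => ?_
    rw [Function.update_of_ne (Finset.ne_of_mem_erase hl')]
  have hXY : ∑ l, (φ (Function.update v l (X (Y (v l)))) + ∑ l' ∈ Finset.univ.erase l,
      φ (Function.update (Function.update v l (Y (v l))) l' (X (v l')))) = 0 := by
    refine Finset.sum_eq_zero fun l _ => ?_
    rw [← hd Y X l]
    exact hX _
  have hYX : ∑ l, (φ (Function.update v l (Y (X (v l)))) + ∑ l' ∈ Finset.univ.erase l,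
      φ (Function.update (Function.update v l (X (v l))) l' (Y (v l')))) = 0 := by
    refine Finset.sum_eq_zero fun l _ => ?_
    rw [← hd X Y l]
    exact hY _
  have hsw : ∑ l, ∑ l' ∈ Finset.univ.erase l,
      φ (Function.update (Function.update v l (Y (v l))) l' (X (v l'))) =
      ∑ l, ∑ l' ∈ Finset.univ.erase l,
      φ (Function.update (Function.update v l (X (v l))) l' (Y (v l'))) := by
    rw [Finset.sum_comm' (s' := fun l' => Finset.univ.erase l') (t' := Finset.univ) (by
      intro a b
      simp only [Finset.mem_univ, Finset.mem_erase, true_and, and_true]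
      exact ne_comm)]
    refine Finset.sum_congr rfl fun l _ => Finset.sum_congr rfl fun l' hl' => ?_
    rw [Function.update_comm (Finset.ne_of_mem_erase hl')]
  have h : ∀ l, φ (Function.update v l ((X * Y - Y * X) (v l))) =
      φ (Function.update v l (X (Y (v l)))) - φ (Function.update v l (Y (X (v l)))) := fun l => by
    rw [LinearMap.sub_apply, φ.map_update_sub]
    rfl
  rw [Finset.sum_congr rfl fun l _ => h l, Finset.sum_sub_distrib]
  rw [Finset.sum_add_distrib] at hXY hYX
  linear_combination hXY - hYX - hsw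

end forms

section conv

variable {k : Type} [Field k] {V : Type} [AddCommGroup V] [Module k V]
  (sh : Dual k V →ₗ[k] V)

/-- Vectors, or vectors given by dual vectors. -/
noncomputable def gm1 (b : Bool) : (V × Dual k V) →ₗ[k] V :=
  if b then LinearMap.fst k _ _ else sh ∘ₗ LinearMap.snd k _ _

/-- The tensor given by a form. -/
noncomputable def tens {m : ℕ} (φ : Form k V m) : Tensor k V (2 * m) :=
  φ.compLinearMap fun l => gm1 sh (decide (l.val < m))

theorem tens_apply {m : ℕ} (φ : Form k V m) (u : Fin (2 * m) → V × Dual k V) :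
    tens sh φ u = φ (fun l => gm1 sh (decide (l.val < m)) (u l)) := rfl

variable {sh} {ω : V →ₗ[k] V →ₗ[k] k} (hsh : ∀ ξ y, ω (sh ξ) y = ξ y)
  (hω : ∀ x, (∀ y, ω x y = 0) → x = 0)

include hsh hω

theorem sh_eq1 {ξ : Dual k V} {x : V} (h : ∀ y, ω x y = ξ y) : sh ξ = x := by
  have h1 : sh ξ - x = 0 := hω _ fun y => by
    rw [map_sub, LinearMap.sub_apply, hsh, h, sub_self]
  exact sub_eq_zero.1 h1

theorem gm1_surj (b : Bool) (y : V) : ∃ u, gm1 sh b u = y := by
  cases b with
  | true => exact ⟨(y, 0), rfl⟩
  | false => exact ⟨(0, ω y), sh_eq1 hsh hω fun z => rfl⟩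

theorem gm1_lie {X : End k V} {ν : k} (hν : ∀ x y, ω (X x) y + ω x (X y) = ν * ω x y) (b : Bool)
    (u : V × Dual k V) :
    gm1 sh b (lie X u) = X (gm1 sh b u) - (if b then 0 else ν) • gm1 sh b u := by
  cases b with
  | true =>
    rw [if_pos rfl, zero_smul, sub_zero]
    rfl
  | false =>
    rw [if_neg (by decide)]
    change sh ((-X.dualMap) u.2) = X (sh u.2) - ν • sh u.2
    refine sh_eq1 hsh hω fun y => ?_
    have h1 := hν (sh u.2) y
    have h2 : (-X.dualMap) u.2 y = -u.2 (X y) := rfl
    have h4 := hsh u.2 (X y)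
    rw [h2, map_sub, map_smul, LinearMap.sub_apply, LinearMap.smul_apply, smul_eq_mul]
    linear_combination h1 - h4

theorem half_card (m : ℕ) : (Finset.univ.filter fun l : Fin (2 * m) => ¬ (l.val < m)).card = m :=
  Pool.Agent.U980.AD.card_half (ι := Unit) (V := fun _ => V) (sh := fun _ => sh)
    (ω := fun _ => ω) (fun _ => hsh) (fun _ => hω) m

theorem kills_tens {m : ℕ} (φ : Form k V m) {X : End k V} {ν : k}
    (hν : ∀ x y, ω (X x) y + ω x (X y) = ν * ω x y) :
    KillsTensor X (tens sh φ) ↔ ∀ v, ∑ l, φ (Function.update v l (X (v l))) = m * ν * φ v := by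
  have key : ∀ (u : Fin (2 * m) → V × Dual k V),
      ∑ l, tens sh φ (Function.update u l (lie X (u l))) =
        ∑ l, φ (Function.update (fun l => gm1 sh (decide (l.val < m)) (u l)) l
          (X (gm1 sh (decide (l.val < m)) (u l)))) -
        m * ν * φ (fun l => gm1 sh (decide (l.val < m)) (u l)) := by
    intro u
    obtain ⟨w, hw⟩ : ∃ w : Fin (2 * m) → V, w = fun l => gm1 sh (decide (l.val < m)) (u l) :=
      ⟨_, rfl⟩
    have hw' : ∀ l, gm1 sh (decide (l.val < m)) (u l) = w l := fun l => by rw [hw]
    rw [← hw]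
    have h1 : ∀ l, tens sh φ (Function.update u l (lie X (u l))) =
        φ (Function.update w l (X (w l))) - (if l.val < m then 0 else ν) * φ w := by
      intro l
      rw [tens_apply]
      have h2 : (fun l' => gm1 sh (decide (l'.val < m)) (Function.update u l (lie X (u l)) l')) =
          Function.update w l (X (w l) - (if l.val < m then (0 : k) else ν) • w l) := by
        funext l'
        by_cases h : l' = l
        · subst h
          rw [Function.update_self, Function.update_self, gm1_lie hsh hω hν, hw']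
          simp only [decide_eq_true_eq]
        · rw [Function.update_of_ne h, Function.update_of_ne h, hw']
      rw [h2, φ.map_update_sub, φ.map_update_smul, Function.update_eq_self, smul_eq_mul]
    rw [Finset.sum_congr rfl fun l _ => h1 l, Finset.sum_sub_distrib, ← Finset.sum_mul]
    have h0 : ∀ l, φ (Function.update w l (X (gm1 sh (decide (l.val < m)) (u l)))) =
        φ (Function.update w l (X (w l))) := fun l => by rw [hw' l]
    rw [Finset.sum_congr rfl fun l _ => h0 l]
    congr 2
    have h3 : ∑ l : Fin (2 * m), (if l.val < m then (0 : k) else ν) =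
        ∑ l ∈ Finset.univ.filter (fun l : Fin (2 * m) => ¬ (l.val < m)), ν := by
      rw [Finset.sum_filter]
      refine Finset.sum_congr rfl fun l _ => ?_
      by_cases h : l.val < m
      · rw [if_pos h, if_neg (not_not.2 h)]
      · rw [if_neg h, if_pos h]
    rw [h3, Finset.sum_const, half_card hsh hω m, nsmul_eq_mul]
  constructor
  · intro h v
    choose u hu using fun l : Fin (2 * m) => gm1_surj hsh hω (decide (l.val < m)) (v l)
    have h2 := key u
    rw [h u] at h2
    simp only [hu] at h2
    exact sub_eq_zero.1 h2.symm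
  · intro h u
    rw [key u, h, sub_self]

variable {Γ : Type} [Group Γ] (ρ : Representation k Γ V) (χ : Γ →* k)
  (hχ : ∀ g x y, ω (ρ g x) (ρ g y) = χ g * ω x y)

include hχ

theorem chi_ne1 (g : Γ) : χ g ≠ 0 := by
  have h : χ g * χ g⁻¹ = 1 := by rw [← map_mul, mul_inv_cancel, map_one]
  exact left_ne_zero_of_mul_eq_one h

theorem gm1_grp (g : Γ) (b : Bool) (u : V × Dual k V) :
    gm1 sh b (grp (ρ g) (ρ g⁻¹) u) = (if b then 1 else (χ g)⁻¹) • ρ g (gm1 sh b u) := by
  cases b with
  | true =>
    rw [if_pos rfl, one_smul]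
    rfl
  | false =>
    rw [if_neg (by decide)]
    change sh ((ρ g⁻¹).dualMap u.2) = (χ g)⁻¹ • ρ g (sh u.2)
    refine sh_eq1 hsh hω fun y => ?_
    have h2 : (ρ g⁻¹).dualMap u.2 y = u.2 (ρ g⁻¹ y) := rfl
    have h3 : ρ g (ρ g⁻¹ y) = y := by
      rw [← Module.End.mul_apply, ← map_mul, mul_inv_cancel, map_one, Module.End.one_apply]
    rw [h2, map_smul, LinearMap.smul_apply, smul_eq_mul]
    conv_lhs => rw [← h3, hχ, hsh]
    rw [← mul_assoc, inv_mul_cancel₀ (chi_ne1 hsh hω ρ χ hχ g), one_mul]

theorem tate_tens {m : ℕ} {φ : Form k V m} (h : IsTate ρ χ φ) : TateTensor ρ (tens sh φ) := by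
  obtain ⟨Δ, hΔ, hf⟩ := h
  refine ⟨Δ, hΔ, fun g hg u => ?_⟩
  rw [tens_apply]
  have h1 : (fun l : Fin (2 * m) => gm1 sh (decide (l.val < m)) (grp (ρ g) (ρ g⁻¹) (u l))) =
      fun l => (if l.val < m then (1 : k) else (χ g)⁻¹) •
        ρ g (gm1 sh (decide (l.val < m)) (u l)) := by
    funext l
    rw [gm1_grp hsh hω ρ χ hχ]
    simp only [decide_eq_true_eq]
  rw [h1, φ.map_smul_univ, smul_eq_mul, hf g hg, tens_apply]
  have h3 : ∏ l : Fin (2 * m), (if l.val < m then (1 : k) else (χ g)⁻¹) =
      ∏ l ∈ Finset.univ.filter (fun l : Fin (2 * m) => ¬ (l.val < m)), (χ g)⁻¹ := by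
    rw [Finset.prod_filter]
    refine Finset.prod_congr rfl fun l _ => ?_
    by_cases h : l.val < m
    · rw [if_pos h, if_neg (not_not.2 h)]
    · rw [if_neg h, if_pos h]
  rw [h3, Finset.prod_const, half_card hsh hω m, inv_pow,
    inv_mul_cancel_left₀ (pow_ne_zero m (chi_ne1 hsh hω ρ χ hχ g))]

end conv

end Pool.Agent.U980.MF
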