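import Mathlib
import Pool.Agent.U980.MF.Form

/-!
# Forms with rational coefficients, and descent to the rational numbers
-/

set_option autoImplicit false
set_option linter.unusedSectionVars false

namespace Pool.Agent.U980.MF

open Module Pool.Agent.R913.Adj

section coord

variable {K : Type} [Field K] {n m : ℕ}

/-- The form with the coefficients `d`. -/
noncomputable def frm (d : (Fin (2 * m) → Fin n) → K) : Form K (Fin n → K) m :=
  ∑ b, d b • (MultilinearMap.mkPiAlgebra K (Fin (2 * m)) K).compLinearMap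
    (fun l => LinearMap.proj (b l))

theorem frm_apply (d : (Fin (2 * m) → Fin n) → K) (v : Fin (2 * m) → Fin n → K) :
    frm d v = ∑ b, d b * ∏ l, v l (b l) := by
  unfold frm
  rw [_root_.sum_apply]
  refine Finset.sum_congr rfl fun b _ => ?_
  rw [_root_.smul_apply, MultilinearMap.compLinearMap_apply,
    MultilinearMap.mkPiAlgebra_apply, smul_eq_mul]
  rfl

/-- The coefficients of a form. -/
def coef (φ : Form K (Fin n → K) m) (b : Fin (2 * m) → Fin n) : K :=
  φ (fun l => Pi.single (b l) 1)

theorem coef_frm (d : (Fin (2 * m) → Fin n) → K) (b : Fin (2 * m) → Fin n) :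
    coef (frm d) b = d b := by
  unfold coef
  rw [frm_apply, Finset.sum_eq_single b]
  · rw [Finset.prod_eq_one, mul_one]
    intro l _
    rw [Pi.single_eq_same]
  · intro b' _ hb'
    obtain ⟨l, hl⟩ := Function.ne_iff.1 hb'
    rw [Finset.prod_eq_zero (Finset.mem_univ l), mul_zero]
    rw [Pi.single_eq_of_ne hl]
  · intro h
    exact absurd (Finset.mem_univ b) h

theorem form_ext {φ ψ : Form K (Fin n → K) m} (h : ∀ b, coef φ b = coef ψ b) : φ = ψ := by
  refine Basis.ext_multilinear (fun _ => Pi.basisFun K (Fin n)) fun b => ?_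
  have h1 := h b
  simp only [Pi.basisFun_apply]
  exact h1

theorem frm_coef (φ : Form K (Fin n → K) m) : frm (coef φ) = φ :=
  form_ext fun b => coef_frm _ b

/-- The condition that the derivation by `M` kills the form with the coefficients `d`. -/
def Cd (M : Matrix (Fin n) (Fin n) K) (d : (Fin (2 * m) → Fin n) → K) : Prop :=
  ∀ b : Fin (2 * m) → Fin n, ∑ l, ∑ k, M k (b l) * d (Function.update b l k) = 0

theorem coord_sum (φ : Form K (Fin n → K) m) (X : End K (Fin n → K)) (b : Fin (2 * m) → Fin n) :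
    ∑ l, φ (Function.update (fun l => Pi.single (b l) (1 : K)) l (X (Pi.single (b l) 1))) =
      ∑ l, ∑ k, LinearMap.toMatrix' X k (b l) * coef φ (Function.update b l k) := by
  refine Finset.sum_congr rfl fun l _ => ?_
  have h1 : X (Pi.single (b l) 1) =
      ∑ k, LinearMap.toMatrix' X k (b l) • (Pi.single k (1 : K) : Fin n → K) := by
    funext k
    rw [Finset.sum_apply, Finset.sum_eq_single k]
    · rw [Pi.smul_apply, Pi.single_eq_same, smul_eq_mul, mul_one, LinearMap.toMatrix'_apply]
    · intro k' _ hk'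
      rw [Pi.smul_apply, Pi.single_eq_of_ne hk'.symm, smul_zero]
    · intro h
      exact absurd (Finset.mem_univ k) h
  rw [h1, φ.map_update_sum]
  refine Finset.sum_congr rfl fun k _ => ?_
  rw [φ.map_update_smul, smul_eq_mul]
  congr 1
  unfold coef
  congr 1
  funext l'
  by_cases h : l' = l
  · subst h
    rw [Function.update_self, Function.update_self]
  · rw [Function.update_of_ne h, Function.update_of_ne h]

theorem kills_iff (X : End K (Fin n → K)) (φ : Form K (Fin n → K) m) :
    Kills X φ ↔ Cd (LinearMap.toMatrix' X) (coef φ) := by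
  constructor
  · intro h b
    rw [← coord_sum]
    exact h _
  · intro h
    have h1 : dsum φ X = 0 := by
      refine Basis.ext_multilinear (fun _ => Pi.basisFun K (Fin n)) fun b => ?_
      simp only [Pi.basisFun_apply]
      rw [dsum_apply, _root_.zero_apply]
      have h2 := coord_sum φ X b
      rw [h b] at h2
      exact h2
    intro v
    rw [← dsum_apply, h1, _root_.zero_apply]

end coord

section descent

variable {K : Type} [Field K] [CharZero K] {n m : ℕ}

theorem dual_mul (f : K →ₗ[ℚ] ℚ) (q : ℚ) (x : K) : f ((q : K) * x) = q * f x := by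
  have h : (q : K) * x = q • x := by
    rw [Algebra.smul_def]
    rfl
  rw [h, map_smul, smul_eq_mul]

theorem dual_mul' (f : K →ₗ[ℚ] ℚ) (q : ℚ) (x : K) : f (x * (q : K)) = f x * q := by
  rw [mul_comm, dual_mul, mul_comm]

/-- A number is zero if all the rational functionals vanish. -/
theorem eq_zero_of_dual {x : K} (h : ∀ f : K →ₗ[ℚ] ℚ, f x = 0) : x = 0 :=
  (Module.forall_dual_apply_eq_zero_iff ℚ x).1 h

/-- The matrix with the same rational entries. -/
def cst (K : Type) [Field K] {n : ℕ} (N : Matrix (Fin n) (Fin n) ℚ) : Matrix (Fin n) (Fin n) K :=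
  fun i j => (N i j : K)

/-- Apply a rational functional to the entries. -/
def fnl (f : K →ₗ[ℚ] ℚ) (M : Matrix (Fin n) (Fin n) K) : Matrix (Fin n) (Fin n) ℚ :=
  fun i j => f (M i j)

theorem fnl_cd (f : K →ₗ[ℚ] ℚ) {M : Matrix (Fin n) (Fin n) K} {c : (Fin (2 * m) → Fin n) → ℚ}
    (h : Cd M (fun b => (c b : K))) : Cd (fnl f M) c := by
  intro b
  have h1 := congrArg f (h b)
  rw [map_zero, map_sum] at h1
  rw [← h1]
  refine Finset.sum_congr rfl fun l _ => ?_
  rw [map_sum]
  refine Finset.sum_congr rfl fun k _ => ?_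
  rw [dual_mul']
  rfl

theorem cd_fnl (f : K →ₗ[ℚ] ℚ) {N : Matrix (Fin n) (Fin n) ℚ} {d : (Fin (2 * m) → Fin n) → K}
    (h : Cd (cst K N) d) : Cd N (fun b => f (d b)) := by
  intro b
  have h1 := congrArg f (h b)
  rw [map_zero, map_sum] at h1
  rw [← h1]
  refine Finset.sum_congr rfl fun l _ => ?_
  rw [map_sum]
  refine Finset.sum_congr rfl fun k _ => ?_
  exact (dual_mul f _ _).symm

theorem cd_of_fnl {M : Matrix (Fin n) (Fin n) K} {c : (Fin (2 * m) → Fin n) → ℚ}
    (h : ∀ f : K →ₗ[ℚ] ℚ, Cd (fnl f M) c) : Cd M (fun b => (c b : K)) := by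
  intro b
  refine eq_zero_of_dual fun f => ?_
  rw [map_sum, ← h f b]
  refine Finset.sum_congr rfl fun l _ => ?_
  rw [map_sum]
  refine Finset.sum_congr rfl fun k _ => ?_
  rw [dual_mul']
  rfl

theorem cd_cst {N : Matrix (Fin n) (Fin n) ℚ} {c : (Fin (2 * m) → Fin n) → ℚ} (h : Cd N c) :
    Cd (cst K N) (fun b => (c b : K)) := by
  intro b
  have h1 := congrArg (fun q : ℚ => (q : K)) (h b)
  simp only [Rat.cast_sum, Rat.cast_mul, Rat.cast_zero] at h1
  exact h1

end descent

end Pool.Agent.U980.MF
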