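import Mathlib
import Pool.Agent.U980.MF.Coord

/-!
# Hodge forms on complex tori with a Riemann form
-/

set_option autoImplicit false
set_option linter.unusedSectionVars false

namespace Pool.Agent.U980.MF

open Module Pool.Agent.R913.Adj

/-- A complex abelian variety: the torus `ℝ ^ n / ℤ ^ n` with the complex structure `J` and the
Riemann form `E` of a polarization (up to a positive rational multiple). -/
structure RiemannData (n : ℕ) where
  /-- the complex structure -/
  J : Matrix (Fin n) (Fin n) ℝ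
  /-- the Riemann form -/
  E : Matrix (Fin n) (Fin n) ℚ
  sq : J * J = -1
  skew : E.transpose = -E
  inv : J.transpose * cst ℝ E * J = cst ℝ E
  pos : (cst ℝ E * J).PosDef

variable {n : ℕ} (A : RiemannData n)

/-- The form of degree `2 m` with the rational coefficients `c` is a Hodge form: it is of type
`(m, m)`, i.e. the derivation by `J` kills it. -/
def IsHodge {m : ℕ} (c : (Fin (2 * m) → Fin n) → ℚ) : Prop :=
  Kills (Matrix.toLin' A.J) (frm fun b => (c b : ℝ))

theorem isHodge_iff {m : ℕ} (c : (Fin (2 * m) → Fin n) → ℚ) :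
    IsHodge A c ↔ Cd A.J (fun b => (c b : ℝ)) := by
  unfold IsHodge
  rw [kills_iff, LinearMap.toMatrix'_toLin']
  have h : coef (frm fun b => (c b : ℝ)) = fun b => (c b : ℝ) := funext fun b => coef_frm _ b
  rw [h]

section gen

variable (K : Type) [Field K] [CharZero K]

/-- The Lie algebra of the Hodge group, with coefficients in `K`: the endomorphisms which kill all
Hodge forms. -/
def hodgeLie : Submodule K (End K (Fin n → K)) where
  carrier := {X | ∀ (m : ℕ) (c : (Fin (2 * m) → Fin n) → ℚ), IsHodge A c →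
    Kills X (frm fun b => (c b : K))}
  add_mem' := fun hX hY m c hc => (hX m c hc).add (hY m c hc)
  zero_mem' := fun _ _ _ => Kills.zero _
  smul_mem' := fun a _ hX m c hc => (hX m c hc).smul a

/-- The matrix kills all Hodge forms. -/
def HM (M : Matrix (Fin n) (Fin n) K) : Prop :=
  ∀ (m : ℕ) (c : (Fin (2 * m) → Fin n) → ℚ), IsHodge A c → Cd M (fun b => (c b : K))

variable {K}

theorem coef_rat {m : ℕ} (c : (Fin (2 * m) → Fin n) → ℚ) :
    coef (frm fun b => (c b : K)) = fun b => (c b : K) := funext fun b => coef_frm _ b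

theorem mem_iff (X : End K (Fin n → K)) : X ∈ hodgeLie A K ↔ HM A K (LinearMap.toMatrix' X) := by
  constructor
  · intro h m c hc
    have h1 := (kills_iff _ _).1 (h m c hc)
    rwa [coef_rat] at h1
  · intro h m c hc
    rw [kills_iff, coef_rat]
    exact h m c hc

theorem lin_mem (M : Matrix (Fin n) (Fin n) K) : Matrix.toLin' M ∈ hodgeLie A K ↔ HM A K M := by
  rw [mem_iff, LinearMap.toMatrix'_toLin']

theorem lie_mem {X Y : End K (Fin n → K)} (hX : X ∈ hodgeLie A K) (hY : Y ∈ hodgeLie A K) :
    X * Y - Y * X ∈ hodgeLie A K := fun m c hc => (hX m c hc).bracket (hY m c hc)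

variable {A}

theorem HM.fnl {M : Matrix (Fin n) (Fin n) K} (h : HM A K M) (f : K →ₗ[ℚ] ℚ) :
    HM A ℚ (fnl f M) := by
  intro m c hc
  have h1 := fnl_cd f (h m c hc)
  simp only [Rat.cast_id]
  exact h1

theorem HM.cst {N : Matrix (Fin n) (Fin n) ℚ} (h : HM A ℚ N) : HM A K (cst K N) := by
  intro m c hc
  have h1 := h m c hc
  simp only [Rat.cast_id] at h1
  exact cd_cst h1

variable (A)

theorem J_mem : HM A ℝ A.J := fun _ c hc => (isHodge_iff A c).1 hc

/-- A rational form killed by the rational part of the Lie algebra is a Hodge form. -/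
theorem hodge_of_rat {m : ℕ} {c : (Fin (2 * m) → Fin n) → ℚ}
    (h : ∀ N : Matrix (Fin n) (Fin n) ℚ, HM A ℚ N → Cd N c) : IsHodge A c :=
  (isHodge_iff A c).2 (cd_of_fnl fun f => h _ ((J_mem A).fnl f))

/-- The forms which are combinations of Hodge forms, with coefficients in `K`. -/
def hodgeSpan (K : Type) [Field K] [CharZero K] (m : ℕ) : Submodule K (Form K (Fin n → K) m) :=
  Submodule.span K {ψ | ∃ c : (Fin (2 * m) → Fin n) → ℚ, IsHodge A c ∧ ψ = frm fun b => (c b : K)}

theorem span_of_killed {m : ℕ} {φ : Form K (Fin n → K) m}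
    (h : ∀ X ∈ hodgeLie A K, Kills X φ) : φ ∈ hodgeSpan A K m := by
  classical
  let B := Basis.ofVectorSpace ℚ K
  have h1 : ∀ i, IsHodge A (fun b => B.repr (coef φ b) i) := by
    intro i
    refine hodge_of_rat A fun N hN => ?_
    have h2 := (kills_iff _ _).1 (h _ ((lin_mem A _).2 (hN.cst (K := K))))
    rw [LinearMap.toMatrix'_toLin'] at h2
    exact cd_fnl (B.coord i) h2
  let s := Finset.univ.biUnion fun b => (B.repr (coef φ b)).support
  have h3 : φ = ∑ i ∈ s, B i • frm (fun b => ((B.repr (coef φ b) i : ℚ) : K)) := by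
    refine form_ext fun b => ?_
    have h4 : coef (∑ i ∈ s, B i • frm (fun b => ((B.repr (coef φ b) i : ℚ) : K))) b =
        ∑ i ∈ s, B i * ((B.repr (coef φ b) i : ℚ) : K) := by
      unfold coef
      rw [_root_.sum_apply]
      refine Finset.sum_congr rfl fun i _ => ?_
      rw [_root_.smul_apply, smul_eq_mul]
      congr 1
      exact coef_frm _ b
    rw [h4]
    conv_lhs => rw [← B.linearCombination_repr (coef φ b), Finsupp.linearCombination_apply]
    rw [Finsupp.sum_of_support_subset (s := s)]
    · refine Finset.sum_congr rfl fun i _ => ?_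
      rw [Algebra.smul_def, mul_comm]
      rfl
    · exact Finset.subset_biUnion_of_mem (fun b => (B.repr (coef φ b)).support)
        (Finset.mem_univ b)
    · intro i _
      rw [zero_smul]
  rw [h3]
  exact Submodule.sum_mem _ fun i _ => Submodule.smul_mem _ _
    (Submodule.subset_span ⟨_, h1 i, rfl⟩)

/-- Conversely. -/
theorem killed_of_span {m : ℕ} {φ : Form K (Fin n → K) m} (h : φ ∈ hodgeSpan A K m)
    {X : End K (Fin n → K)} (hX : X ∈ hodgeLie A K) : Kills X φ := by
  unfold hodgeSpan at h
  refine Submodule.span_induction (p := fun φ _ => Kills X φ) ?_ ?_ ?_ ?_ h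
  · rintro ψ ⟨c, hc, rfl⟩
    exact hX m c hc
  · exact Kills.form_zero X
  · intro _ _ _ _ h1 h2
    exact h1.form_add h2
  · intro a _ _ h1
    exact h1.form_smul a

end gen

section two

variable {K : Type} [Field K] [CharZero K]

/-- The coefficients of the bilinear form with the matrix `B`. -/
def bil {R : Type} (B : Matrix (Fin n) (Fin n) R) (b : Fin (2 * 1) → Fin n) : R := B (b 0) (b 1)

theorem cd_bil (M B : Matrix (Fin n) (Fin n) K) :
    Cd M (bil B) ↔ M.transpose * B + B * M = 0 := by
  have key : ∀ b : Fin (2 * 1) → Fin n, ∑ l, ∑ k, M k (b l) * bil B (Function.update b l k) =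
      (M.transpose * B + B * M) (b 0) (b 1) := by
    intro b
    change ∑ l : Fin 2, _ = _
    rw [Fin.sum_univ_two, Matrix.add_apply, Matrix.mul_apply, Matrix.mul_apply]
    congr 1
    refine Finset.sum_congr rfl fun k _ => ?_
    rw [mul_comm]
    rfl
  constructor
  · intro h
    ext i j
    have h1 := h ![i, j]
    rw [key] at h1
    exact h1
  · intro h b
    rw [key, h]
    rfl

theorem bil_cst (B : Matrix (Fin n) (Fin n) ℚ) :
    (fun b => ((bil B b : ℚ) : K)) = bil (cst K B) := rfl

theorem cst_mul (B C : Matrix (Fin n) (Fin n) ℚ) : cst K (B * C) = cst K B * cst K C := by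
  ext i j
  change ((∑ l, B i l * C l j : ℚ) : K) = ∑ l, (B i l : K) * (C l j : K)
  rw [Rat.cast_sum]
  exact Finset.sum_congr rfl fun l _ => Rat.cast_mul _ _

theorem cst_transpose (B : Matrix (Fin n) (Fin n) ℚ) :
    cst K B.transpose = (cst K B).transpose := rfl

theorem cst_inj {B C : Matrix (Fin n) (Fin n) ℚ} (h : cst K B = cst K C) : B = C := by
  ext i j
  have h1 := congrFun (congrFun h i) j
  exact Rat.cast_injective h1

theorem cst_neg (B : Matrix (Fin n) (Fin n) ℚ) : cst K (-B) = -cst K B := by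
  ext i j
  exact Rat.cast_neg _

theorem hodge_bil {B : Matrix (Fin n) (Fin n) ℚ}
    (h : A.J.transpose * cst ℝ B + cst ℝ B * A.J = 0) : IsHodge A (bil B) := by
  rw [isHodge_iff, bil_cst]
  exact (cd_bil _ _).2 h

/-- `J` is skew for the Riemann form. -/
theorem J_skew : A.J.transpose * cst ℝ A.E + cst ℝ A.E * A.J = 0 := by
  have h1 := congrArg (fun M => M * A.J) A.inv
  rw [Matrix.mul_assoc, A.sq, Matrix.mul_neg, Matrix.mul_one] at h1
  rw [← h1]
  exact add_neg_cancel _

theorem hm_skew {M : Matrix (Fin n) (Fin n) K} (h : HM A K M) :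
    M.transpose * cst K A.E + cst K A.E * M = 0 := by
  have h1 := h 1 _ (hodge_bil A (J_skew A))
  rw [bil_cst] at h1
  exact (cd_bil _ _).1 h1

theorem E_det : A.E.det ≠ 0 := by
  intro h
  have h1 := A.pos.det_pos
  rw [Matrix.det_mul] at h1
  have h2 : (cst ℝ A.E).det = ((A.E.det : ℚ) : ℝ) := by
    exact ((Rat.castHom ℝ).map_det A.E).symm
  rw [h2, h, Rat.cast_zero, zero_mul] at h1
  exact lt_irrefl _ h1

theorem E_unit : IsUnit (cst K A.E).det := by
  have h2 : (cst K A.E).det = ((A.E.det : ℚ) : K) := by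
    exact ((Rat.castHom K).map_det A.E).symm
  rw [h2, isUnit_iff_ne_zero]
  exact Rat.cast_ne_zero.2 (E_det A)

/-- The endomorphisms of the abelian variety commute with the Lie algebra. -/
theorem comm_rat {N : Matrix (Fin n) (Fin n) ℚ} (hN : cst ℝ N * A.J = A.J * cst ℝ N)
    {M : Matrix (Fin n) (Fin n) K} (h : HM A K M) : M * cst K N = cst K N * M := by
  have h0 : IsHodge A (bil (N.transpose * A.E)) := by
    refine hodge_bil A ?_
    rw [cst_mul, cst_transpose, ← Matrix.mul_assoc, ← Matrix.transpose_mul, hN,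
      Matrix.transpose_mul, Matrix.mul_assoc, Matrix.mul_assoc, ← Matrix.mul_add, J_skew,
      Matrix.mul_zero]
  have h1 := h 1 _ h0
  rw [bil_cst, cd_bil, cst_mul, cst_transpose] at h1
  have h2 := hm_skew A h
  have h3 : cst K A.E * M = -(M.transpose * cst K A.E) := by
    rw [eq_neg_iff_add_eq_zero, add_comm]
    exact h2
  rw [Matrix.mul_assoc _ _ M, h3, Matrix.mul_neg, ← Matrix.mul_assoc, ← Matrix.mul_assoc,
    ← Matrix.transpose_mul, ← Matrix.transpose_mul, ← sub_eq_add_neg, sub_eq_zero] at h1
  have h4 := (Matrix.isUnit_iff_isUnit_det _).2 (E_unit (K := K) A)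
  have h5 := h4.mul_right_cancel h1
  have h6 := congrArg Matrix.transpose h5
  rw [Matrix.transpose_transpose, Matrix.transpose_transpose] at h6
  exact h6.symm

end two

end Pool.Agent.U980.MF
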