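import Mathlib
import Pool.Agent.U980.MF.Hodge

/-!
# The trace form is nondegenerate on the Lie algebra of the Hodge group
-/

set_option autoImplicit false
set_option linter.unusedSectionVars false

namespace Pool.Agent.U980.MF

open Module Pool.Agent.R913.Adj Matrix
open scoped MatrixOrder ComplexOrder

variable {n : ℕ} (A : RiemannData n)

theorem hm_add {K : Type} [Field K] [CharZero K] {M N : Matrix (Fin n) (Fin n) K}
    (hM : HM A K M) (hN : HM A K N) : HM A K (M + N) := by
  rw [← lin_mem] at hM hN ⊢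
  rw [map_add]
  exact (hodgeLie A K).add_mem hM hN

theorem hm_smul {K : Type} [Field K] [CharZero K] {M : Matrix (Fin n) (Fin n) K} (c : K)
    (hM : HM A K M) : HM A K (c • M) := by
  rw [← lin_mem] at hM ⊢
  rw [map_smul]
  exact (hodgeLie A K).smul_mem c hM

theorem hm_lie {K : Type} [Field K] [CharZero K] {M N : Matrix (Fin n) (Fin n) K}
    (hM : HM A K M) (hN : HM A K N) : HM A K (M * N - N * M) := by
  rw [← lin_mem] at hM hN ⊢
  rw [map_sub, Matrix.toLin'_mul, Matrix.toLin'_mul]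
  exact lie_mem A hM hN

/-- The Cartan involution. -/
theorem hm_cartan {M : Matrix (Fin n) (Fin n) ℝ} (hM : HM A ℝ M) : HM A ℝ (A.J * M * A.J) := by
  have h1 := hm_lie A (J_mem A) (hm_lie A (J_mem A) hM)
  have h2 : A.J * M * A.J = (-(1 / 2) : ℝ) •
      (A.J * (A.J * M - M * A.J) - (A.J * M - M * A.J) * A.J) + (-1 : ℝ) • M := by
    have e1 : A.J * (A.J * M) = -M := by rw [← Matrix.mul_assoc, A.sq, Matrix.neg_mul, one_mul]
    have e2 : M * A.J * A.J = -M := by rw [Matrix.mul_assoc, A.sq, Matrix.mul_neg, mul_one]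
    have e3 : A.J * (M * A.J) = A.J * M * A.J := (Matrix.mul_assoc _ _ _).symm
    rw [Matrix.mul_sub, Matrix.sub_mul, e1, e2, e3]
    ext i j
    simp only [Matrix.add_apply, Matrix.sub_apply, Matrix.smul_apply, Matrix.neg_apply,
      smul_eq_mul]
    ring
  rw [h2]
  exact hm_add A (hm_smul A _ h1) (hm_smul A _ hM)

theorem zero_of_adjoint {M Y S : Matrix (Fin n) (Fin n) ℝ} (hS : S.PosDef)
    (h : S * Y = M.transpose * S) (ht : (M * Y).trace = 0) : M = 0 := by
  obtain ⟨B, hB⟩ := CStarAlgebra.nonneg_iff_eq_star_mul_self.mp hS.posSemidef.nonneg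
  have hB' : S = B.transpose * B := by
    rw [hB]
    rfl
  have hdet : IsUnit B.det := by
    have h1 := hS.det_pos
    rw [hB', Matrix.det_mul, Matrix.det_transpose] at h1
    rw [isUnit_iff_ne_zero]
    intro h0
    rw [h0, mul_zero] at h1
    exact lt_irrefl _ h1
  have h1 : B * B⁻¹ = 1 := Matrix.mul_nonsing_inv B hdet
  have h2 : B⁻¹ * B = 1 := Matrix.nonsing_inv_mul B hdet
  have h3 : (B * M * B⁻¹).transpose = B * Y * B⁻¹ := by
    have h4 : B.transpose * (B * Y) = B.transpose * (B⁻¹.transpose * (M.transpose * S)) := by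
      rw [← Matrix.mul_assoc, ← hB', h, ← Matrix.mul_assoc B.transpose, ← Matrix.transpose_mul,
        h2, Matrix.transpose_one, Matrix.one_mul]
    have h5 : B * Y = B⁻¹.transpose * (M.transpose * S) := by
      have h6 : IsUnit B.transpose := by
        rw [Matrix.isUnit_iff_isUnit_det, Matrix.det_transpose]
        exact hdet
      exact h6.mul_left_cancel h4
    rw [h5, hB', Matrix.transpose_mul, Matrix.transpose_mul]
    simp only [Matrix.mul_assoc]
    rw [h1, Matrix.mul_one]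
  have h4 : (B * M * B⁻¹ * (B * M * B⁻¹).transpose).trace = 0 := by
    rw [h3]
    have h5 : B * M * B⁻¹ * (B * Y * B⁻¹) = B * (M * Y) * B⁻¹ := by
      have h6 : B * M * B⁻¹ * (B * Y * B⁻¹) = B * M * (B⁻¹ * B) * Y * B⁻¹ := by
        simp only [Matrix.mul_assoc]
      rw [h6, h2, Matrix.mul_one]
      simp only [Matrix.mul_assoc]
    rw [h5, Matrix.trace_mul_comm, ← Matrix.mul_assoc, h2, Matrix.one_mul, ht]
  have h5 : B * M * B⁻¹ = 0 := by
    rw [← Matrix.conjTranspose_eq_transpose_of_trivial] at h4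
    exact Matrix.trace_mul_conjTranspose_self_eq_zero_iff.1 h4
  have h6 : B⁻¹ * (B * M * B⁻¹) * B = M := by
    have h7 : B⁻¹ * (B * M * B⁻¹) * B = B⁻¹ * B * M * (B⁻¹ * B) := by
      simp only [Matrix.mul_assoc]
    rw [h7, h2, Matrix.one_mul, Matrix.mul_one]
  rw [← h6, h5, Matrix.mul_zero, Matrix.zero_mul]

theorem nondeg_real {M : Matrix (Fin n) (Fin n) ℝ} (hM : HM A ℝ M)
    (h : ∀ Y, HM A ℝ Y → (M * Y).trace = 0) : M = 0 := by
  refine zero_of_adjoint A.pos (Y := A.J * M * A.J) ?_ (h _ (hm_cartan A hM))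
  have h1 := hm_skew A hM
  have h2 : cst ℝ A.E * M = -(M.transpose * cst ℝ A.E) := by
    rw [eq_neg_iff_add_eq_zero, add_comm]
    exact h1
  have h3 : cst ℝ A.E * A.J * (A.J * M * A.J) = cst ℝ A.E * (A.J * A.J) * M * A.J := by
    simp only [Matrix.mul_assoc]
  rw [h3, A.sq, Matrix.mul_neg, Matrix.mul_one, Matrix.neg_mul, h2, neg_neg, Matrix.mul_assoc]

section descent

variable {K : Type} [Field K] [CharZero K]

theorem tr_fnl (f : K →ₗ[ℚ] ℚ) (M : Matrix (Fin n) (Fin n) K) (N : Matrix (Fin n) (Fin n) ℚ) :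
    f (M * cst K N).trace = (fnl f M * N).trace := by
  simp only [Matrix.trace, Matrix.diag_apply, Matrix.mul_apply]
  rw [map_sum]
  refine Finset.sum_congr rfl fun i _ => ?_
  rw [map_sum]
  refine Finset.sum_congr rfl fun j _ => ?_
  exact dual_mul' f _ _

theorem tr_fnl' (f : K →ₗ[ℚ] ℚ) (M : Matrix (Fin n) (Fin n) K) (N : Matrix (Fin n) (Fin n) ℚ) :
    f (cst K N * M).trace = (N * fnl f M).trace := by
  rw [Matrix.trace_mul_comm, tr_fnl, Matrix.trace_mul_comm]

/-- The trace form is nondegenerate on the Lie algebra of the Hodge group. -/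
theorem nondeg {X : End K (Fin n → K)} (hX : X ∈ hodgeLie A K)
    (h : ∀ Y ∈ hodgeLie A K, LinearMap.trace K (Fin n → K) (X * Y) = 0) : X = 0 := by
  have hX' := (mem_iff A X).1 hX
  have h0 : ∀ N : Matrix (Fin n) (Fin n) ℚ, HM A ℚ N →
      (LinearMap.toMatrix' X * cst K N).trace = 0 := by
    intro N hN
    have h1 := h _ ((lin_mem A (cst K N)).2 hN.cst)
    have h2 : X * Matrix.toLin' (cst K N) = Matrix.toLin' (LinearMap.toMatrix' X * cst K N) := by
      rw [Matrix.toLin'_mul, Matrix.toLin'_toMatrix']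
      rfl
    rw [h2, Matrix.trace_toLin'_eq] at h1
    exact h1
  have h1 : ∀ f : K →ₗ[ℚ] ℚ, fnl f (LinearMap.toMatrix' X) = 0 := by
    intro f
    have h2 : cst ℝ (fnl f (LinearMap.toMatrix' X)) = 0 := by
      refine nondeg_real A (hX'.fnl f).cst fun Y hY => eq_zero_of_dual fun g => ?_
      rw [tr_fnl', ← tr_fnl, h0 _ (hY.fnl g), map_zero]
    refine cst_inj (K := ℝ) (h2.trans ?_)
    ext i j
    exact Rat.cast_zero.symm
  have h2 : LinearMap.toMatrix' X = 0 := by
    ext i j
    exact eq_zero_of_dual fun f => congrFun (congrFun (h1 f) i) j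
  exact (LinearEquiv.map_eq_zero_iff LinearMap.toMatrix').1 h2

end descent

section form

variable (K : Type) [Field K] [CharZero K]

/-- The Riemann form with coefficients in `K`. -/
noncomputable def riem : (Fin n → K) →ₗ[K] (Fin n → K) →ₗ[K] K :=
  Matrix.toLinearMap₂' K (cst K A.E)

theorem riem_apply (x y : Fin n → K) : riem A K x y = x ⬝ᵥ (cst K A.E *ᵥ y) :=
  Matrix.toLinearMap₂'_apply' _ _ _

theorem riem_nondeg : ∀ x, (∀ y, riem A K x y = 0) → x = 0 := by
  intro x h
  have h1 : x ᵥ* cst K A.E = 0 := by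
    funext j
    have h2 := h (Pi.single j 1)
    rw [riem_apply, Matrix.dotProduct_mulVec] at h2
    rw [dotProduct_single, mul_one] at h2
    exact h2
  have h2 := (E_unit (K := K) A)
  have h3 : x ᵥ* cst K A.E ᵥ* (cst K A.E)⁻¹ = x := by
    rw [Matrix.vecMul_vecMul, Matrix.mul_nonsing_inv _ h2, Matrix.vecMul_one]
  rw [← h3, h1, Matrix.zero_vecMul]

theorem exists_sh : ∃ sh : Dual K (Fin n → K) →ₗ[K] (Fin n → K),
    ∀ ξ y, riem A K (sh ξ) y = ξ y := by
  have hinj : Function.Injective (riem A K) := by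
    rw [injective_iff_map_eq_zero]
    intro x hx
    exact riem_nondeg A K x fun y => by rw [hx, LinearMap.zero_apply]
  let e : (Fin n → K) ≃ₗ[K] Dual K (Fin n → K) :=
    LinearMap.linearEquivOfInjective (riem A K) hinj (Subspace.dual_finrank_eq).symm
  refine ⟨e.symm.toLinearMap, fun ξ y => ?_⟩
  have h1 : e (e.symm ξ) = ξ := e.apply_symm_apply ξ
  exact LinearMap.congr_fun h1 y

theorem riem_skew {X : End K (Fin n → K)} (hX : X ∈ hodgeLie A K) (x y : Fin n → K) :
    riem A K (X x) y + riem A K x (X y) = 0 := by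
  have h1 := hm_skew A ((mem_iff A X).1 hX)
  have h2 : ∀ x, X x = LinearMap.toMatrix' X *ᵥ x := fun x => (LinearMap.toMatrix'_mulVec X x).symm
  rw [riem_apply, riem_apply, h2, h2]
  have h3 : (LinearMap.toMatrix' X *ᵥ x) ⬝ᵥ (cst K A.E *ᵥ y) =
      x ⬝ᵥ (((LinearMap.toMatrix' X).transpose * cst K A.E) *ᵥ y) := by
    rw [← Matrix.mulVec_mulVec, Matrix.dotProduct_mulVec x, Matrix.vecMul_transpose]
  rw [h3, Matrix.mulVec_mulVec, ← dotProduct_add, ← Matrix.add_mulVec, h1, Matrix.zero_mulVec,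
    dotProduct_zero]

end form

end Pool.Agent.U980.MF
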