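import Mathlib
import Pool.Agent.U980.MF.Form

/-!
# Four-linear forms given by linear maps of the space of endomorphisms
-/

set_option autoImplicit false
set_option linter.unusedSectionVars false

namespace Pool.Agent.U980.MF

open Module Pool.Agent.Y114.RM Pool.Agent.Y114.TF Pool.Agent.R913.Adj Pool.Agent.U980.AD

section quart

variable {k : Type} [Field k] {V : Type} [AddCommGroup V] [Module k V]

/-- The form `ω (T (v ↦ ω (y, v) x) z, w)`. -/
def quart (ω : V →ₗ[k] V →ₗ[k] k) (T : End k V →ₗ[k] End k V) : Form k V 2 :=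
  formT (ι := Unit) (V := fun _ => V) (fun _ => ω) () () T

theorem quart_apply (ω : V →ₗ[k] V →ₗ[k] k) (T : End k V →ₗ[k] End k V) (u : Fin (2 * 2) → V) :
    quart ω T u = ω (T (rk ω (u 0) (u 1)) (u 2)) (u 3) := rfl

theorem quart_add (ω : V →ₗ[k] V →ₗ[k] k) (S T : End k V →ₗ[k] End k V) :
    quart ω (S + T) = quart ω S + quart ω T := by
  ext u
  rw [MultilinearMap.add_apply, quart_apply, quart_apply, quart_apply, LinearMap.add_apply,
    LinearMap.add_apply, map_add, LinearMap.add_apply]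

theorem quart_smul (ω : V →ₗ[k] V →ₗ[k] k) (c : k) (T : End k V →ₗ[k] End k V) :
    quart ω (c • T) = c • quart ω T := by
  ext u
  rw [MultilinearMap.smul_apply, quart_apply, quart_apply, LinearMap.smul_apply,
    LinearMap.smul_apply, map_smul, LinearMap.smul_apply]

/-- The form depends linearly on the map. -/
def quartL (ω : V →ₗ[k] V →ₗ[k] k) : (End k V →ₗ[k] End k V) →ₗ[k] Form k V 2 where
  toFun := quart ω
  map_add' := quart_add ω
  map_smul' c T := quart_smul ω c T

variable {sh : Dual k V →ₗ[k] V} {ω : V →ₗ[k] V →ₗ[k] k} (hsh : ∀ ξ y, ω (sh ξ) y = ξ y)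
  (hω : ∀ x, (∀ y, ω x y = 0) → x = 0)

theorem quart_tate {Γ : Type} [Group Γ] {ρ : Representation k Γ V} {χ : Γ →* k}
    (hχ : ∀ g x y, ω (ρ g x) (ρ g y) = χ g * ω x y) {T : End k V →ₗ[k] End k V}
    (hT : IsTateMap ρ ρ T) : IsTate ρ χ (quart ω T) := by
  obtain ⟨Δ, hΔ, h⟩ := hT
  refine ⟨Δ, hΔ, fun g hg v => ?_⟩
  exact gT_grp (ι := Unit) (V := fun _ => V) (ω := fun _ => ω) (ρ := fun _ => ρ) (χ := χ)
    (fun _ => hχ) (i := ()) (j := ()) (h g hg) (v 0) (v 1) (v 2) (v 3)

include hsh hω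

theorem quart_kills [FiniteDimensional k V] {T : End k V →ₗ[k] End k V} {X : End k V}
    (hX : ∀ x y, ω (X x) y + ω x (X y) = 0) :
    Kills X (quart ω T) ↔ CommutesAd T X X := by
  have hν : ∀ (_ : Unit) (x y : V), ω (X x) y + ω x (X y) = (0 : k) * ω x y := fun _ x y => by
    rw [hX, zero_mul]
  have key : ∀ u : Fin (2 * 2) → V, ∑ l, quart ω T (Function.update u l (X (u l))) =
      ω (T (adE X (rk ω (u 0) (u 1))) (u 2)) (u 3) -
        ω (adE X (T (rk ω (u 0) (u 1))) (u 2)) (u 3) := by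
    intro u
    have h1 := sum_formT (ι := Unit) (V := fun _ => V) (fun _ => ω) () () T (fun _ => X)
      (u 0) (u 1) (u 2) (u 3) u rfl rfl rfl rfl
    have h2 := gT_lie (ι := Unit) (V := fun _ => V) (ω := fun _ => ω) (i := ()) (j := ()) (T := T)
      (A := fun _ => X) (ν := 0) hν (u 0) (u 1) (u 2) (u 3)
    rw [h2, mul_zero, zero_mul, add_zero] at h1
    exact h1
  constructor
  · intro h B
    refine rk_ext hsh (S := T ∘ₗ (adE X)) (T := (adE X) ∘ₗ T) (fun x y => ?_) B
    refine LinearMap.ext fun z => ?_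
    rw [← sub_eq_zero]
    refine hω _ fun w => ?_
    have h1 := key (![x, y, z, w] : Fin 4 → V)
    rw [h] at h1
    rw [map_sub, LinearMap.sub_apply]
    exact h1.symm
  · intro h u
    rw [key u, h (rk ω (u 0) (u 1)), sub_self]

theorem quart_inj [FiniteDimensional k V] {T : End k V →ₗ[k] End k V} (h : quart ω T = 0) :
    T = 0 := by
  refine LinearMap.ext fun B => ?_
  refine rk_ext hsh (S := T) (T := 0) (fun x y => ?_) B
  refine LinearMap.ext fun z => ?_
  refine hω _ fun w => ?_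
  have h1 := congrArg (fun F : Form k V 2 => F (![x, y, z, w] : Fin 4 → V)) h
  exact h1

end quart

end Pool.Agent.U980.MF
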