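import Mathlib
import Pool.Agent.U980.MF.Form

/-!
# Simple factors of a Lie algebra with a nondegenerate trace form
-/

set_option autoImplicit false
set_option linter.unusedSectionVars false

namespace Pool.Agent.U980.MF

open Module Pool.Agent.Y114.RM Pool.Agent.R913.Adj

/-- `𝔫` is a simple factor of `𝔤`: a nonabelian minimal ideal. -/
structure IsSimpleFactor {k : Type} [Field k] {V : Type} [AddCommGroup V] [Module k V]
    (𝔤 𝔫 : Submodule k (End k V)) : Prop where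
  le : 𝔫 ≤ 𝔤
  ideal : ∀ X ∈ 𝔤, ∀ Y ∈ 𝔫, X * Y - Y * X ∈ 𝔫
  min : ∀ 𝔪 ≤ 𝔫, (∀ X ∈ 𝔤, ∀ Y ∈ 𝔪, X * Y - Y * X ∈ 𝔪) → 𝔪 = ⊥ ∨ 𝔪 = 𝔫
  nonab : ∃ X ∈ 𝔫, ∃ Y ∈ 𝔫, X * Y - Y * X ≠ 0

/-- The centroid of the ideal `𝔫` of `𝔤`: the linear maps from `𝔫` to `𝔫` which commute with the
brackets with the elements of `𝔤`. If `𝔫` is a simple factor, it is a field, and `𝔫` is the sum of
`dim (centroid 𝔤 𝔫)` simple factors after the extension of the coefficients to an algebraic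
closure. -/
def centroid {k : Type} [Field k] {V : Type} [AddCommGroup V] [Module k V]
    (𝔤 𝔫 : Submodule k (End k V)) : Submodule k (𝔫 →ₗ[k] End k V) where
  carrier := {f | (∀ Y, f Y ∈ 𝔫) ∧ ∀ X ∈ 𝔤, ∀ Y Z : 𝔫, (Z : End k V) = X * Y - Y * X →
    f Z = X * f Y - f Y * X}
  add_mem' := by
    rintro f g ⟨hf1, hf⟩ ⟨hg1, hg⟩
    refine ⟨fun Y => 𝔫.add_mem (hf1 Y) (hg1 Y), fun X hX Y Z h => ?_⟩
    rw [LinearMap.add_apply, LinearMap.add_apply, hf X hX Y Z h, hg X hX Y Z h]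
    noncomm_ring
  zero_mem' := by
    refine ⟨fun Y => 𝔫.zero_mem, fun X hX Y Z h => ?_⟩
    rw [LinearMap.zero_apply, LinearMap.zero_apply, mul_zero, zero_mul, sub_zero]
  smul_mem' := by
    rintro c f ⟨hf1, hf⟩
    refine ⟨fun Y => 𝔫.smul_mem c (hf1 Y), fun X hX Y Z h => ?_⟩
    rw [LinearMap.smul_apply, LinearMap.smul_apply, hf X hX Y Z h, mul_smul_comm, smul_mul_assoc,
      smul_sub]

section basic

variable {k : Type} [Field k] {V : Type} [AddCommGroup V] [Module k V]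
  {𝔤 𝔫 𝔫' : Submodule k (End k V)}

/-- A nonzero element of the centroid of a simple factor is injective. -/
theorem centroid_inj (h : IsSimpleFactor 𝔤 𝔫) {f : 𝔫 →ₗ[k] End k V} (hf : f ∈ centroid 𝔤 𝔫)
    (h0 : f ≠ 0) : Function.Injective f := by
  have hle : (LinearMap.ker f).map 𝔫.subtype ≤ 𝔫 := by
    rintro _ ⟨Y, _, rfl⟩
    exact Y.2
  have hid : ∀ X ∈ 𝔤, ∀ Y ∈ (LinearMap.ker f).map 𝔫.subtype,
      X * Y - Y * X ∈ (LinearMap.ker f).map 𝔫.subtype := by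
    rintro X hX _ ⟨Y, hY, rfl⟩
    refine ⟨⟨_, h.ideal X hX Y Y.2⟩, ?_, rfl⟩
    have h1 := hf.2 X hX Y ⟨_, h.ideal X hX Y Y.2⟩ rfl
    have h2 : f Y = 0 := hY
    rw [h2, mul_zero, zero_mul, sub_zero] at h1
    exact h1
  rcases h.min _ hle hid with h1 | h1
  · rw [injective_iff_map_eq_zero]
    intro Y hY
    have h2 : (Y : End k V) ∈ (LinearMap.ker f).map 𝔫.subtype := ⟨Y, hY, rfl⟩
    rw [h1, Submodule.mem_bot] at h2
    exact Subtype.ext h2
  · exfalso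
    refine h0 (LinearMap.ext fun Y => ?_)
    have h2 : (Y : End k V) ∈ (LinearMap.ker f).map 𝔫.subtype := by
      rw [h1]
      exact Y.2
    obtain ⟨Z, hZ, hZY⟩ := h2
    have h3 : Z = Y := Subtype.ext hZY
    rw [← h3]
    exact hZ

theorem tr_ad (X A B : End k V) :
    LinearMap.trace k V ((X * A - A * X) * B) = -LinearMap.trace k V (A * (X * B - B * X)) := by
  have h : LinearMap.trace k V (X * A * B) = LinearMap.trace k V (A * B * X) := by
    rw [mul_assoc, LinearMap.trace_mul_comm]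
  rw [sub_mul, mul_sub, map_sub, map_sub, h]
  simp only [mul_assoc]
  ring

theorem tr_ad' (X A B : End k V) :
    LinearMap.trace k V ((X * A - A * X) * B) = LinearMap.trace k V (X * (A * B - B * A)) := by
  have h : LinearMap.trace k V (A * X * B) = LinearMap.trace k V (X * B * A) := by
    rw [mul_assoc, LinearMap.trace_mul_comm]
  rw [sub_mul, mul_sub, map_sub, map_sub, h]
  simp only [mul_assoc]

theorem IsSimpleFactor.ne_bot (h : IsSimpleFactor 𝔤 𝔫) : 𝔫 ≠ ⊥ := by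
  intro h0
  obtain ⟨X, hX, Y, hY, h1⟩ := h.nonab
  rw [h0, Submodule.mem_bot] at hX
  rw [hX, zero_mul, mul_zero, sub_zero] at h1
  exact h1 rfl

/-- A simple factor is spanned by the brackets of its elements. -/
theorem IsSimpleFactor.perfect (h : IsSimpleFactor 𝔤 𝔫) :
    Submodule.span k {Z | ∃ X ∈ 𝔫, ∃ Y ∈ 𝔫, Z = X * Y - Y * X} = 𝔫 := by
  have hle : Submodule.span k {Z | ∃ X ∈ 𝔫, ∃ Y ∈ 𝔫, Z = X * Y - Y * X} ≤ 𝔫 := by
    rw [Submodule.span_le]
    rintro Z ⟨X, hX, Y, hY, rfl⟩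
    exact h.ideal X (h.le hX) Y hY
  have hid : ∀ X ∈ 𝔤, ∀ Z ∈ Submodule.span k {Z | ∃ X ∈ 𝔫, ∃ Y ∈ 𝔫, Z = X * Y - Y * X},
      X * Z - Z * X ∈ Submodule.span k {Z | ∃ X ∈ 𝔫, ∃ Y ∈ 𝔫, Z = X * Y - Y * X} := by
    intro X hX Z hZ
    refine Submodule.span_induction (p := fun Z _ => X * Z - Z * X ∈
      Submodule.span k {Z | ∃ X ∈ 𝔫, ∃ Y ∈ 𝔫, Z = X * Y - Y * X}) ?_ ?_ ?_ ?_ hZ
    · rintro Z ⟨Y, hY, W, hW, rfl⟩
      have e : X * (Y * W - W * Y) - (Y * W - W * Y) * X =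
          ((X * Y - Y * X) * W - W * (X * Y - Y * X)) +
            (Y * (X * W - W * X) - (X * W - W * X) * Y) := by noncomm_ring
      rw [e]
      exact Submodule.add_mem _ (Submodule.subset_span ⟨_, h.ideal X hX Y hY, W, hW, rfl⟩)
        (Submodule.subset_span ⟨Y, hY, _, h.ideal X hX W hW, rfl⟩)
    · rw [mul_zero, zero_mul, sub_zero]
      exact Submodule.zero_mem _
    · intro a b _ _ ha hb
      have e : X * (a + b) - (a + b) * X = (X * a - a * X) + (X * b - b * X) := by noncomm_ring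
      rw [e]
      exact Submodule.add_mem _ ha hb
    · intro c a _ ha
      have e : X * (c • a) - (c • a) * X = c • (X * a - a * X) := by
        rw [mul_smul_comm, smul_mul_assoc, smul_sub]
      rw [e]
      exact Submodule.smul_mem _ c ha
  rcases h.min _ hle hid with h1 | h1
  · exfalso
    obtain ⟨X, hX, Y, hY, h2⟩ := h.nonab
    refine h2 ?_
    rw [← Submodule.mem_bot k, ← h1]
    exact Submodule.subset_span ⟨X, hX, Y, hY, rfl⟩
  · exact h1

/-- Induction: a linear condition which holds for the brackets holds for the simple factor. -/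
theorem IsSimpleFactor.induct (h : IsSimpleFactor 𝔤 𝔫) (S : Submodule k (End k V))
    (hS : ∀ X ∈ 𝔫, ∀ Y ∈ 𝔫, X * Y - Y * X ∈ S) : 𝔫 ≤ S := by
  rw [← h.perfect, Submodule.span_le]
  rintro Z ⟨X, hX, Y, hY, rfl⟩
  exact hS X hX Y hY

theorem factors_disjoint (h : IsSimpleFactor 𝔤 𝔫) (h' : IsSimpleFactor 𝔤 𝔫') (hne : 𝔫 ≠ 𝔫') :
    𝔫 ⊓ 𝔫' = ⊥ := by
  have hid : ∀ X ∈ 𝔤, ∀ Y ∈ 𝔫 ⊓ 𝔫', X * Y - Y * X ∈ 𝔫 ⊓ 𝔫' := fun X hX Y hY =>
    ⟨h.ideal X hX Y hY.1, h'.ideal X hX Y hY.2⟩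
  rcases h.min _ inf_le_left hid with h1 | h1
  · exact h1
  · rcases h'.min _ inf_le_right hid with h2 | h2
    · exact h2
    · exact absurd (h1.symm.trans h2) hne

theorem factors_comm (h : IsSimpleFactor 𝔤 𝔫) (h' : IsSimpleFactor 𝔤 𝔫') (hne : 𝔫 ≠ 𝔫')
    {X Y : End k V} (hX : X ∈ 𝔫) (hY : Y ∈ 𝔫') : X * Y - Y * X = 0 := by
  rw [← Submodule.mem_bot k, ← factors_disjoint h h' hne]
  refine ⟨?_, h'.ideal X (h.le hX) Y hY⟩
  have h1 := h.ideal Y (h'.le hY) X hX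
  have h2 := Submodule.neg_mem _ h1
  rwa [neg_sub] at h2

theorem factors_orth (h : IsSimpleFactor 𝔤 𝔫) (h' : IsSimpleFactor 𝔤 𝔫') (hne : 𝔫 ≠ 𝔫')
    {X Y : End k V} (hX : X ∈ 𝔫) (hY : Y ∈ 𝔫') : LinearMap.trace k V (X * Y) = 0 := by
  let S : Submodule k (End k V) :=
    LinearMap.ker ((LinearMap.trace k V) ∘ₗ (LinearMap.mulRight k Y))
  have h1 : 𝔫 ≤ S := by
    refine h.induct S fun Z hZ W hW => ?_
    change LinearMap.trace k V ((Z * W - W * Z) * Y) = 0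
    rw [tr_ad', factors_comm h h' hne hW hY, mul_zero, map_zero]
  exact h1 hX

/-- The trace form is nondegenerate on a simple factor. -/
theorem IsSimpleFactor.nonDeg (hnd : NonDeg 𝔤) (h : IsSimpleFactor 𝔤 𝔫) : NonDeg 𝔫 := by
  let R : Submodule k (End k V) :=
    { carrier := {X | X ∈ 𝔫 ∧ ∀ Y ∈ 𝔫, LinearMap.trace k V (X * Y) = 0}
      add_mem' := fun {a b} ha hb => ⟨𝔫.add_mem ha.1 hb.1, fun Y hY => by
        rw [add_mul, map_add, ha.2 Y hY, hb.2 Y hY, add_zero]⟩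
      zero_mem' := ⟨𝔫.zero_mem, fun Y _ => by rw [zero_mul, map_zero]⟩
      smul_mem' := fun c a ha => ⟨𝔫.smul_mem c ha.1, fun Y hY => by
        rw [smul_mul_assoc, map_smul, ha.2 Y hY, smul_zero]⟩ }
  have hR : ∀ X, X ∈ R ↔ X ∈ 𝔫 ∧ ∀ Y ∈ 𝔫, LinearMap.trace k V (X * Y) = 0 := fun X => Iff.rfl
  have hid : ∀ X ∈ 𝔤, ∀ Y ∈ R, X * Y - Y * X ∈ R := by
    intro X hX Y hY
    refine ⟨h.ideal X hX Y hY.1, fun Z hZ => ?_⟩
    rw [tr_ad, neg_eq_zero]
    exact hY.2 _ (h.ideal X hX Z hZ)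
  rcases h.min R (fun X hX => hX.1) hid with h1 | h1
  · intro X hX hXY
    rw [← Submodule.mem_bot k, ← h1]
    exact ⟨hX, hXY⟩
  · exfalso
    obtain ⟨X, hX, Y, hY, h2⟩ := h.nonab
    refine h2 (hnd _ (h.le (h.ideal X (h.le hX) Y hY)) fun Z hZ => ?_)
    rw [tr_ad']
    have h3 : Y * Z - Z * Y ∈ 𝔫 := by
      have h4 := Submodule.neg_mem _ (h.ideal Z hZ Y hY)
      rwa [neg_sub] at h4
    rw [← h1] at hX
    exact hX.2 _ h3

/-- The projection onto an ideal commutes with the adjoint action. -/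
theorem proj_ad [FiniteDimensional k V] (hid : ∀ X ∈ 𝔤, ∀ Y ∈ 𝔫, X * Y - Y * X ∈ 𝔫) (hnd : NonDeg 𝔫)
    {π : End k V →ₗ[k] End k V} (hπ : IsProj 𝔫 π) {X : End k V} (hX : X ∈ 𝔤) :
    CommutesAd π X X := by
  intro A
  rw [adE_apply, adE_apply]
  refine eq_of_traces hnd (hπ.mem _) (hid X hX _ (hπ.mem A)) fun W hW => ?_
  rw [hπ.tr _ W hW, tr_ad, tr_ad, hπ.tr _ _ (hid X hX W hW)]

theorem proj_proj [FiniteDimensional k V] (h : IsSimpleFactor 𝔤 𝔫) (h' : IsSimpleFactor 𝔤 𝔫')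
    (hne : 𝔫 ≠ 𝔫') (hnd : NonDeg 𝔫) {π π' : End k V →ₗ[k] End k V} (hπ : IsProj 𝔫 π)
    (hπ' : IsProj 𝔫' π') (A : End k V) : π (π' A) = 0 := by
  refine hnd _ (hπ.mem _) fun W hW => ?_
  rw [hπ.tr _ W hW, LinearMap.trace_mul_comm, factors_orth h h' hne hW (hπ'.mem A)]

/-- The projections are selfadjoint. -/
theorem proj_adj {L : Submodule k (End k V)} {P : End k V →ₗ[k] End k V} (hP : IsProj L P)
    (A B : End k V) : LinearMap.trace k V (P A * B) = LinearMap.trace k V (A * P B) := by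
  rw [← hP.tr A _ (hP.mem B), LinearMap.trace_mul_comm, ← hP.tr B _ (hP.mem A),
    LinearMap.trace_mul_comm]

end basic

section main

variable {k : Type} [Field k] {V : Type} [AddCommGroup V] [Module k V] [FiniteDimensional k V]
  {𝔤 𝔫 L : Submodule k (End k V)}

/-- The trace form is nondegenerate on all endomorphisms. -/
theorem eq_of_tr {A B : End k V}
    (h : ∀ C, LinearMap.trace k V (A * C) = LinearMap.trace k V (B * C)) : A = B := by
  refine LinearMap.ext fun x => ?_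
  rw [← sub_eq_zero, ← Module.forall_dual_apply_eq_zero_iff k]
  intro ξ
  have h1 := h (ξ.smulRight x)
  have h2 : ∀ A : End k V, LinearMap.trace k V (A * ξ.smulRight x) = ξ (A x) := by
    intro A
    have h3 : A * ξ.smulRight x = ξ.smulRight (A x) := by
      refine LinearMap.ext fun y => ?_
      rw [Module.End.mul_apply, LinearMap.smulRight_apply, map_smul, LinearMap.smulRight_apply]
    rw [h3]
    exact LinearMap.trace_smulRight ξ (A x)
  rw [h2, h2] at h1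
  rw [map_sub, h1, sub_self]

theorem comm_swap {P π : End k V →ₗ[k] End k V}
    (hP : ∀ A B, LinearMap.trace k V (P A * B) = LinearMap.trace k V (A * P B))
    (hπ : ∀ A B, LinearMap.trace k V (π A * B) = LinearMap.trace k V (A * π B)) {X : End k V}
    (h : ∀ A, π (P (X * A - A * X)) = X * π (P A) - π (P A) * X) (A : End k V) :
    P (π (X * A - A * X)) = X * P (π A) - P (π A) * X := by
  refine eq_of_tr fun B => ?_
  rw [hP, hπ, tr_ad, tr_ad, ← h, ← hπ, ← hP]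

/-- If the composition of the projections to `L` and to the simple factor `𝔫` commutes with `𝔤`,
then `𝔫` is contained in `L`, or commutes with `L`. -/
theorem factor_or (hnd : NonDeg 𝔤) (h : IsSimpleFactor 𝔤 𝔫)
    (hLG : ∀ X ∈ L, ∃ c : k, X - c • (1 : End k V) ∈ 𝔤) {P π : End k V →ₗ[k] End k V}
    (hP : IsProj L P) (hπ : IsProj 𝔫 π)
    (hc : ∀ X ∈ 𝔤, ∀ A, π (P (X * A - A * X)) = X * π (P A) - π (P A) * X) :
    𝔫 ≤ L ∨ ∀ A ∈ 𝔫, ∀ X ∈ L, A * X = X * A := by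
  have h1 : ∀ X ∈ 𝔤, ∀ A ∈ 𝔫, P (X * A - A * X) = X * P A - P A * X := by
    intro X hX A hA
    have h2 := comm_swap (proj_adj hP) (proj_adj hπ) (hc X hX) A
    rwa [hπ.fix _ (h.ideal X hX A hA), hπ.fix A hA] at h2
  have hbr : ∀ Y ∈ 𝔫, ∀ X ∈ L, Y * X - X * Y ∈ 𝔫 := by
    intro Y hY X hX
    obtain ⟨c, hc⟩ := hLG X hX
    have h2 := Submodule.neg_mem _ (h.ideal _ hc Y hY)
    have e : -((X - c • (1 : End k V)) * Y - Y * (X - c • (1 : End k V))) = Y * X - X * Y := by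
      rw [sub_mul, mul_sub, smul_mul_assoc, mul_smul_comm, one_mul, mul_one]
      abel
    rwa [e] at h2
  have hle : 𝔫.map P ≤ 𝔫 := by
    rw [Submodule.map_le_iff_le_comap]
    refine h.induct _ fun Y hY Z hZ => ?_
    rw [Submodule.mem_comap, h1 Y (h.le hY) Z hZ]
    exact hbr Y hY _ (hP.mem Z)
  have hid : ∀ X ∈ 𝔤, ∀ Y ∈ 𝔫.map P, X * Y - Y * X ∈ 𝔫.map P := by
    rintro X hX _ ⟨A, hA, rfl⟩
    exact ⟨_, h.ideal X hX A hA, h1 X hX A hA⟩
  rcases h.min _ hle hid with h2 | h2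
  · right
    have h3 : ∀ A ∈ 𝔫, ∀ X ∈ L, LinearMap.trace k V (A * X) = 0 := by
      intro A hA X hX
      have h4 : P A ∈ 𝔫.map P := ⟨A, hA, rfl⟩
      rw [h2, Submodule.mem_bot] at h4
      rw [← hP.tr A X hX, h4, zero_mul, map_zero]
    intro A hA X hX
    rw [← sub_eq_zero]
    refine h.nonDeg hnd _ (hbr A hA X hX) fun B hB => ?_
    rw [tr_ad, LinearMap.trace_mul_comm, neg_eq_zero]
    exact h3 _ (h.ideal A (h.le hA) B hB) X hX
  · left
    rw [← h2]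
    rintro _ ⟨A, _, rfl⟩
    exact hP.mem A

theorem finrank_le_of_inj {r : ℕ} (𝔤 : Submodule k (End k V))
    (𝔫 : Fin r → Submodule k (End k V)) {m : ℕ} (H T : Submodule k (Form k V m))
    (Φ : ((∀ j, centroid 𝔤 (𝔫 j)) × H) →ₗ[k] T) (hΦ : Function.Injective Φ) :
    ∑ j, finrank k (centroid 𝔤 (𝔫 j)) + finrank k H ≤ finrank k T := by
  have hfree : ∀ j, Module.Free k (centroid 𝔤 (𝔫 j)) := fun j =>
    Module.Free.of_divisionRing k (centroid 𝔤 (𝔫 j))
  have hfree' : Module.Free k H := Module.Free.of_divisionRing k H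
  have hfin : Module.Finite k T := inferInstance
  have h1 := LinearMap.finrank_le_finrank_of_injective hΦ
  rwa [finrank_prod, finrank_pi_fintype] at h1

/-- The centroid of the ideal `𝔫` of `𝔤` has dimension at least `d`: there are `d` linear maps which
preserve `𝔫`, commute on `𝔫` with the brackets with the elements of `𝔤`, and are linearly independent
on `𝔫`. -/
def CentroidDim {k : Type} [Field k] {V : Type} [AddCommGroup V] [Module k V]
    (𝔤 𝔫 : Submodule k (End k V)) (d : ℕ) : Prop :=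
  ∃ f : Fin d → End k V →ₗ[k] End k V, (∀ a, ∀ Y ∈ 𝔫, f a Y ∈ 𝔫) ∧
    (∀ a, ∀ X ∈ 𝔤, ∀ Y ∈ 𝔫, f a (X * Y - Y * X) = X * f a Y - f a Y * X) ∧
    ∀ c : Fin d → k, (∀ Y ∈ 𝔫, ∑ a, c a • f a Y = 0) → c = 0

theorem centroidDim_le {𝔤 𝔫 : Submodule k (End k V)} {d : ℕ} (h : CentroidDim 𝔤 𝔫 d) :
    d ≤ finrank k (centroid 𝔤 𝔫) := by
  have hfree : Module.Free k (centroid 𝔤 𝔫) := Module.Free.of_divisionRing k (centroid 𝔤 𝔫)
  obtain ⟨f, h1, h2, h3⟩ := h
  have hmem : ∀ a, (f a) ∘ₗ 𝔫.subtype ∈ centroid 𝔤 𝔫 := by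
    intro a
    refine ⟨fun Y => h1 a Y Y.2, fun X hX Y Z hZ => ?_⟩
    change f a Z = X * f a Y - f a Y * X
    rw [hZ]
    exact h2 a X hX Y Y.2
  let Φ : (Fin d → k) →ₗ[k] centroid 𝔤 𝔫 :=
    { toFun := fun c => ⟨∑ a, c a • ((f a) ∘ₗ 𝔫.subtype),
        Submodule.sum_mem _ fun a _ => Submodule.smul_mem _ _ (hmem a)⟩
      map_add' := fun c c' => by
        apply Subtype.ext
        refine LinearMap.ext fun Y => ?_
        simp only [Pi.add_apply, add_smul, Finset.sum_add_distrib]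
        rfl
      map_smul' := fun c c' => by
        apply Subtype.ext
        refine LinearMap.ext fun Y => ?_
        simp only [Pi.smul_apply, smul_eq_mul, mul_smul, ← Finset.smul_sum]
        rfl }
  have hinj : Function.Injective Φ := by
    rw [injective_iff_map_eq_zero]
    intro c hc
    refine h3 c fun Y hY => ?_
    have h4 := congrArg (fun g : centroid 𝔤 𝔫 => g.1 ⟨Y, hY⟩) hc
    have h5 : (∑ a, c a • ((f a) ∘ₗ 𝔫.subtype)) ⟨Y, hY⟩ = ∑ a, c a • f a Y := by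
      rw [LinearMap.sum_apply]
      rfl
    rw [← h5]
    exact h4
  have h6 := LinearMap.finrank_le_finrank_of_injective hinj
  rwa [finrank_fin_fun] at h6

theorem centroidDim_one {𝔤 𝔫 : Submodule k (End k V)} (h : IsSimpleFactor 𝔤 𝔫) :
    CentroidDim 𝔤 𝔫 1 := by
  refine ⟨fun _ => LinearMap.id, fun _ Y hY => hY, fun _ X _ Y _ => rfl, fun c hc => ?_⟩
  obtain ⟨X, hX, hX0⟩ : ∃ X ∈ 𝔫, X ≠ 0 := (Submodule.ne_bot_iff _).1 h.ne_bot
  have h1 := hc X hX
  rw [Fin.sum_univ_one, LinearMap.id_apply] at h1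
  funext a
  rw [Subsingleton.elim a 0]
  exact (smul_eq_zero.1 h1).resolve_right hX0

/-- The centroid of a simple factor contains the identity. -/
theorem one_le_centroid {𝔤 𝔫 : Submodule k (End k V)} (h : IsSimpleFactor 𝔤 𝔫) :
    1 ≤ finrank k (centroid 𝔤 𝔫) := by
  have hfree : Module.Free k (centroid 𝔤 𝔫) := Module.Free.of_divisionRing k (centroid 𝔤 𝔫)
  have hid : 𝔫.subtype ∈ centroid 𝔤 𝔫 := by
    refine ⟨fun Y => Y.2, fun X _ Y Z hZ => ?_⟩
    exact hZ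
  obtain ⟨X, hX, hX0⟩ : ∃ X ∈ 𝔫, X ≠ 0 := (Submodule.ne_bot_iff _).1 h.ne_bot
  have hinj : Function.Injective
      (LinearMap.toSpanSingleton k (centroid 𝔤 𝔫) ⟨𝔫.subtype, hid⟩) := by
    intro c c' hc
    have h1 := congrArg (fun f : centroid 𝔤 𝔫 => f.1 ⟨X, hX⟩) hc
    exact smul_left_injective k hX0 h1
  have h2 := LinearMap.finrank_le_finrank_of_injective hinj
  rwa [finrank_self] at h2

end main

end Pool.Agent.U980.MF
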