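import Mathlib
import Pool.Agent.U980.MF.Quart
import Pool.Agent.U980.MF.Pos
import Pool.Agent.U980.MF.Factor
import Pool.Agent.Y41.RM.LieL
import Pool.Agent.Y220.RM.TFR

/-!
# The Galois side
-/

set_option autoImplicit false
set_option linter.unusedSectionVars false

namespace Pool.Agent.U980.MF

open Module Pool.Agent.Y114.RM Pool.Agent.Y114.TF Pool.Agent.R913.Adj Pool.Agent.U980.AD
open Pool.Agent.H204R3.GP

section group

variable {k : Type} [Field k] {V : Type} [AddCommGroup V] [Module k V]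
  {Γ : Type} [Group Γ] {ρ : Representation k Γ V} {χ : Γ →* k}

theorem gg (ρ : Representation k Γ V) (g : Γ) (x : V) : ρ g (ρ g⁻¹ x) = x := by
  rw [← Module.End.mul_apply, ← map_mul, mul_inv_cancel, map_one, Module.End.one_apply]

theorem gg' (ρ : Representation k Γ V) (g : Γ) (x : V) : ρ g⁻¹ (ρ g x) = x := by
  rw [← Module.End.mul_apply, ← map_mul, inv_mul_cancel, map_one, Module.End.one_apply]

/-- The Tate forms of degree `2 m`. -/
def tateForms (ρ : Representation k Γ V) (χ : Γ →* k) (m : ℕ) : Submodule k (Form k V m) where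
  carrier := {φ | IsTate ρ χ φ}
  add_mem' := by
    rintro φ ψ ⟨Δ, hΔ, h⟩ ⟨Δ', hΔ', h'⟩
    refine ⟨Δ ⊓ Δ', inferInstance, fun g hg v => ?_⟩
    rw [_root_.add_apply, _root_.add_apply, h g hg.1, h' g hg.2, mul_add]
  zero_mem' := ⟨⊤, inferInstance, fun g _ v => by
    rw [_root_.zero_apply, _root_.zero_apply, mul_zero]⟩
  smul_mem' := by
    rintro c φ ⟨Δ, hΔ, h⟩
    refine ⟨Δ, hΔ, fun g hg v => ?_⟩
    rw [_root_.smul_apply, _root_.smul_apply, h g hg, smul_eq_mul, smul_eq_mul]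
    ring

variable {sh : Dual k V →ₗ[k] V} {ω : V →ₗ[k] V →ₗ[k] k} (hsh : ∀ ξ y, ω (sh ξ) y = ξ y)
  (hω : ∀ x, (∀ y, ω x y = 0) → x = 0) (hχ : ∀ g x y, ω (ρ g x) (ρ g y) = χ g * ω x y)

include hsh hω hχ

/-- A map whose four-linear form is a Tate form commutes with a subgroup of finite index. -/
theorem tateMap_of_quart [FiniteDimensional k V] {T : End k V →ₗ[k] End k V}
    (h : IsTate ρ χ (quart ω T)) : IsTateMap ρ ρ T := by
  obtain ⟨Δ, hΔ, h⟩ := h
  refine ⟨Δ, hΔ, fun g hg A => ?_⟩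
  have hc := chi_ne1 hsh hω ρ χ hχ g
  refine rk_ext hsh (S := T ∘ₗ (AdE (ρ g) (ρ g⁻¹))) (T := (AdE (ρ g) (ρ g⁻¹)) ∘ₗ T)
    (fun x y => ?_) A
  have h1 : rk ω (ρ g x) (ρ g y) = χ g • (AdE (ρ g) (ρ g⁻¹) (rk ω x y)) := by
    refine LinearMap.ext fun v => ?_
    rw [rk_apply, LinearMap.smul_apply, AdE_apply, Module.End.mul_apply, Module.End.mul_apply,
      rk_apply, map_smul, smul_smul]
    congr 1
    conv_lhs => rw [← gg ρ g v]
    exact hχ g y _
  refine LinearMap.ext fun z => ?_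
  rw [← sub_eq_zero]
  refine hω _ fun w => ?_
  have h2 := h g hg (![x, y, ρ g⁻¹ z, ρ g⁻¹ w] : Fin 4 → V)
  rw [quart_apply, quart_apply] at h2
  change ω (T (rk ω (ρ g x) (ρ g y)) (ρ g (ρ g⁻¹ z))) (ρ g (ρ g⁻¹ w)) =
    χ g ^ 2 * ω (T (rk ω x y) (ρ g⁻¹ z)) (ρ g⁻¹ w) at h2
  rw [gg, gg, h1, map_smul, LinearMap.smul_apply, map_smul, LinearMap.smul_apply, smul_eq_mul,
    sq, mul_assoc] at h2
  have h3 := mul_left_cancel₀ hc h2
  rw [← hχ, gg] at h3
  rw [map_sub, LinearMap.sub_apply, sub_eq_zero]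
  exact h3

end group

section dagger

variable {k : Type} [Field k] {V : Type} [AddCommGroup V] [Module k V]
  {sh : Dual k V →ₗ[k] V} {ω : V →ₗ[k] V →ₗ[k] k}

/-- The adjoint of an endomorphism. -/
noncomputable def dag (sh : Dual k V →ₗ[k] V) (ω : V →ₗ[k] V →ₗ[k] k) :
    End k V →ₗ[k] End k V where
  toFun B := sh ∘ₗ B.dualMap ∘ₗ ω
  map_add' B C := by
    refine LinearMap.ext fun x => ?_
    rw [LinearMap.add_apply, LinearMap.comp_apply, LinearMap.comp_apply, LinearMap.comp_apply,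
      LinearMap.comp_apply, LinearMap.comp_apply, LinearMap.comp_apply, ← map_add]
    congr 1
    refine LinearMap.ext fun y => ?_
    exact map_add (ω x) _ _
  map_smul' c B := by
    refine LinearMap.ext fun x => ?_
    rw [LinearMap.smul_apply, LinearMap.comp_apply, LinearMap.comp_apply, LinearMap.comp_apply,
      LinearMap.comp_apply, RingHom.id_apply, ← map_smul]
    congr 1
    refine LinearMap.ext fun y => ?_
    exact map_smul (ω x) _ _

variable (hsh : ∀ ξ y, ω (sh ξ) y = ξ y) (hω : ∀ x, (∀ y, ω x y = 0) → x = 0)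
  (hsk : ∀ x y, ω x y = -ω y x)

include hsh in
theorem dag_apply (B : End k V) (x y : V) : ω (dag sh ω B x) y = ω x (B y) := hsh _ _

include hsh hω in
theorem dag_mul (B C : End k V) : dag sh ω (B * C) = dag sh ω C * dag sh ω B := by
  refine LinearMap.ext fun x => ?_
  rw [← sub_eq_zero]
  refine hω _ fun y => ?_
  rw [map_sub, LinearMap.sub_apply, dag_apply hsh, Module.End.mul_apply, Module.End.mul_apply,
    dag_apply hsh, dag_apply hsh, sub_self]

include hsh hω hsk in
theorem dag_dag (B : End k V) : dag sh ω (dag sh ω B) = B := by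
  refine LinearMap.ext fun x => ?_
  rw [← sub_eq_zero]
  refine hω _ fun y => ?_
  rw [map_sub, LinearMap.sub_apply, dag_apply hsh, hsk, dag_apply hsh, hsk, neg_neg, sub_self]

include hsh hω in
theorem dag_conj {Γ : Type} [Group Γ] {ρ : Representation k Γ V} {χ : Γ →* k}
    (hχ : ∀ g x y, ω (ρ g x) (ρ g y) = χ g * ω x y) (g : Γ) (B : End k V) :
    dag sh ω (ρ g * (B * ρ g⁻¹)) = ρ g * (dag sh ω B * ρ g⁻¹) := by
  refine LinearMap.ext fun x => ?_
  rw [← sub_eq_zero]
  refine hω _ fun y => ?_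
  rw [map_sub, LinearMap.sub_apply, dag_apply hsh, Module.End.mul_apply, Module.End.mul_apply,
    Module.End.mul_apply, Module.End.mul_apply, sub_eq_zero]
  have h1 : ω x (ρ g (B (ρ g⁻¹ y))) = χ g * ω (ρ g⁻¹ x) (B (ρ g⁻¹ y)) := by
    rw [← hχ, gg]
  have h2 : ω (ρ g (dag sh ω B (ρ g⁻¹ x))) y = χ g * ω (dag sh ω B (ρ g⁻¹ x)) (ρ g⁻¹ y) := by
    rw [← hχ, gg]
  rw [h1, h2, dag_apply hsh]

include hsh hω hsk in
/-- An endomorphism whose bracket commutes with the adjoint is a similitude. -/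
theorem multiplier [FiniteDimensional k V] {X : End k V}
    (h : ∀ B, dag sh ω (X * B - B * X) = X * dag sh ω B - dag sh ω B * X) :
    ∃ ν : k, ∀ x y, ω (X x) y + ω x (X y) = ν * ω x y := by
  have h1 : ∀ B : End k V, (X + dag sh ω X) * B = B * (X + dag sh ω X) := by
    intro B
    have h2 := h (dag sh ω B)
    rw [map_sub, dag_mul hsh hω, dag_mul hsh hω, dag_dag hsh hω hsk] at h2
    rw [add_mul, mul_add]
    have h3 : B * dag sh ω X - dag sh ω X * B = X * B - B * X := h2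
    rw [sub_eq_iff_eq_add] at h3
    rw [h3]
    abel
  obtain ⟨ν, hν⟩ : ∃ ν : k, ∀ x, (X + dag sh ω X) x = ν • x := by
    have h2 : ∀ x, ∃ c : k, (X + dag sh ω X) x = c • x := by
      intro x
      by_cases hx : x = 0
      · exact ⟨0, by rw [hx, map_zero, smul_zero]⟩
      · obtain ⟨ξ, hξ⟩ : ∃ ξ : Dual k V, ξ x ≠ 0 := by
          by_contra hcon
          push Not at hcon
          exact hx ((Module.forall_dual_apply_eq_zero_iff k x).1 hcon)
        have h3 := LinearMap.congr_fun (h1 (ξ.smulRight x)) x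
        rw [Module.End.mul_apply, Module.End.mul_apply, LinearMap.smulRight_apply,
          LinearMap.smulRight_apply, map_smul] at h3
        refine ⟨(ξ x)⁻¹ * ξ ((X + dag sh ω X) x), ?_⟩
        rw [mul_smul, ← h3, smul_smul, inv_mul_cancel₀ hξ, one_smul]
    by_cases hV : ∃ x : V, x ≠ 0
    · obtain ⟨x₀, hx₀⟩ := hV
      obtain ⟨ν, hν⟩ := h2 x₀
      refine ⟨ν, fun y => ?_⟩
      obtain ⟨ξ, hξ⟩ : ∃ ξ : Dual k V, ξ x₀ ≠ 0 := by
        by_contra hcon
        push Not at hcon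
        exact hx₀ ((Module.forall_dual_apply_eq_zero_iff k x₀).1 hcon)
      have h3 := LinearMap.congr_fun (h1 (ξ.smulRight y)) x₀
      rw [Module.End.mul_apply, Module.End.mul_apply, LinearMap.smulRight_apply,
        LinearMap.smulRight_apply, map_smul, hν, map_smul, smul_eq_mul, mul_comm, mul_smul] at h3
      exact smul_right_injective V hξ h3
    · push Not at hV
      exact ⟨0, fun x => by rw [hV x, map_zero, smul_zero]⟩
  refine ⟨ν, fun x y => ?_⟩
  have h2 : ω (X x) y + ω x (X y) = ω ((X + dag sh ω X) x) y := by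
    rw [LinearMap.add_apply, map_add, LinearMap.add_apply, dag_apply hsh]
  rw [h2, hν, map_smul, LinearMap.smul_apply, smul_eq_mul]

end dagger

end Pool.Agent.U980.MF
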