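import Mathlib
import Pool.Agent.U980.MF.Galois

/-!
# Simple factors which are missing in the Galois group give exceptional Tate classes
-/

set_option autoImplicit false
set_option linter.unusedSectionVars false

namespace Pool.Agent.U980.MF

open Module Pool.Agent.Y114.RM Pool.Agent.Y114.TF Pool.Agent.R913.Adj Pool.Agent.U980.AD
open Pool.Agent.H204R3.GP

variable {n : ℕ} (A : RiemannData n) {ℓ : ℕ} [hℓ : Fact ℓ.Prime] {Γ : Type} [Group Γ]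
  [TopologicalSpace Γ] [IsTopologicalGroup Γ] [CompactSpace Γ]
  (ρ : Representation ℚ_[ℓ] Γ (Fin n → ℚ_[ℓ])) (χ : Γ →* ℚ_[ℓ])

/-- The representation of the Galois group on the Tate module: it is continuous, and it respects
the Weil pairing, up to the multiplier `χ`. -/
structure IsTateModule : Prop where
  cont : Continuous fun g => LinearMap.toMatrix' (ρ g)
  weil : ∀ g x y, riem A ℚ_[ℓ] (ρ g x) (ρ g y) = χ g * riem A ℚ_[ℓ] x y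

/-- The theorems of Faltings: the representation is semisimple, and the endomorphisms which commute
with a subgroup of finite index are combinations of endomorphisms of the abelian variety. -/
structure Faltings : Prop where
  semisimple : FiniteIndexSemisimple ρ
  endo : ∀ Z : End ℚ_[ℓ] (Fin n → ℚ_[ℓ]),
    (∃ Δ : Subgroup Γ, Δ.FiniteIndex ∧ ∀ g ∈ Δ, ρ g * Z = Z * ρ g) →
    Z ∈ Submodule.span ℚ_[ℓ] {Y | ∃ N : Matrix (Fin n) (Fin n) ℚ,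
      cst ℝ N * A.J = A.J * cst ℝ N ∧ Y = Matrix.toLin' (cst ℚ_[ℓ] N)}

/-- The theorem of Deligne: Hodge classes are Tate classes. -/
def Deligne : Prop :=
  ∀ (m : ℕ) (c : (Fin (2 * m) → Fin n) → ℚ), IsHodge A c → IsTate ρ χ (frm fun b => (c b : ℚ_[ℓ]))

variable {A ρ χ}

theorem span_le_tate (hD : Deligne A ρ χ) (m : ℕ) : hodgeSpan A ℚ_[ℓ] m ≤ tateForms ρ χ m := by
  unfold hodgeSpan
  rw [Submodule.span_le]
  rintro _ ⟨c, hc, rfl⟩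
  exact hD m c hc

theorem riem_skew' (x y : Fin n → ℚ_[ℓ]) : riem A ℚ_[ℓ] x y = -riem A ℚ_[ℓ] y x := by
  have h1 : (cst ℚ_[ℓ] A.E).transpose = -cst ℚ_[ℓ] A.E := by
    rw [← cst_transpose, A.skew, cst_neg]
  rw [riem_apply, riem_apply, Matrix.dotProduct_mulVec y, ← Matrix.mulVec_transpose, h1,
    Matrix.neg_mulVec, neg_dotProduct, neg_neg, dotProduct_comm]

/-- The Lie algebra of the Galois group, and the projection to it. -/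
structure GalData (A : RiemannData n) (ρ : Representation ℚ_[ℓ] Γ (Fin n → ℚ_[ℓ]))
    (χ : Γ →* ℚ_[ℓ]) where
  L : Submodule ℚ_[ℓ] (End ℚ_[ℓ] (Fin n → ℚ_[ℓ]))
  P : End ℚ_[ℓ] (Fin n → ℚ_[ℓ]) →ₗ[ℚ_[ℓ]] End ℚ_[ℓ] (Fin n → ℚ_[ℓ])
  proj : IsProj L P
  tate : IsTateMap ρ ρ P
  kills : ∀ X ∈ L, ∀ (m : ℕ) (φ : Tensor ℚ_[ℓ] (Fin n → ℚ_[ℓ]) m), TateTensor ρ φ →
    KillsTensor X φ
  mem : ∀ X, (∀ (m : ℕ) (φ : Tensor ℚ_[ℓ] (Fin n → ℚ_[ℓ]) m), TateTensor ρ φ →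
    KillsTensor X φ) → X ∈ L
  mult : ∀ X ∈ L, ∃ ν : ℚ_[ℓ], ∀ x y, riem A ℚ_[ℓ] (X x) y + riem A ℚ_[ℓ] x (X y) =
    ν * riem A ℚ_[ℓ] x y
  hodge : ∀ X ∈ L, ∃ c : ℚ_[ℓ], X - c • (1 : End ℚ_[ℓ] (Fin n → ℚ_[ℓ])) ∈ hodgeLie A ℚ_[ℓ]
  central : ∀ Z : End ℚ_[ℓ] (Fin n → ℚ_[ℓ]), (∀ X ∈ L, Z * X = X * Z) →
    ∀ X ∈ hodgeLie A ℚ_[ℓ], Z * X = X * Z

theorem comm_span {Z : End ℚ_[ℓ] (Fin n → ℚ_[ℓ])}
    (hZ : Z ∈ Submodule.span ℚ_[ℓ] {Y | ∃ N : Matrix (Fin n) (Fin n) ℚ,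
      cst ℝ N * A.J = A.J * cst ℝ N ∧ Y = Matrix.toLin' (cst ℚ_[ℓ] N)})
    {X : End ℚ_[ℓ] (Fin n → ℚ_[ℓ])} (hX : X ∈ hodgeLie A ℚ_[ℓ]) : Z * X = X * Z := by
  refine Submodule.span_induction (p := fun Z _ => Z * X = X * Z) ?_ ?_ ?_ ?_ hZ
  · rintro _ ⟨N, hN, rfl⟩
    have h1 := comm_rat A hN ((mem_iff A X).1 hX)
    have h2 : Matrix.toLin' (LinearMap.toMatrix' X) = X := Matrix.toLin'_toMatrix' X
    have h3 := congrArg Matrix.toLin' h1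
    rw [Matrix.toLin'_mul, Matrix.toLin'_mul, h2] at h3
    exact h3.symm
  · rw [zero_mul, mul_zero]
  · intro a b _ _ ha hb
    rw [add_mul, mul_add, ha, hb]
  · intro c a _ ha
    rw [smul_mul_assoc, mul_smul_comm, ha]

theorem conj_cont (hρ : Continuous fun g => LinearMap.toMatrix' (ρ g))
    (X : End ℚ_[ℓ] (Fin n → ℚ_[ℓ])) (x : Fin n → ℚ_[ℓ]) :
    Continuous fun γ => AdE (ρ γ) (ρ γ⁻¹) X x := by
  have h0 : ∀ (g : Γ → Γ), Continuous g → ∀ y : Γ → (Fin n → ℚ_[ℓ]), Continuous y →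
      Continuous fun γ => ρ (g γ) (y γ) := by
    intro g hg y hy
    have h2 : ∀ γ, ρ (g γ) (y γ) = (LinearMap.toMatrix' (ρ (g γ))).mulVec (y γ) := fun γ =>
      (LinearMap.toMatrix'_mulVec _ _).symm
    have h3 : Continuous fun γ => (LinearMap.toMatrix' (ρ (g γ))).mulVec (y γ) :=
      (hρ.comp hg).matrix_mulVec hy
    exact h3.congr fun γ => (h2 γ).symm
  have h4 : Continuous fun γ : Γ => ρ γ⁻¹ x := h0 _ continuous_inv _ continuous_const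
  have h5 : Continuous X := LinearMap.continuous_of_finiteDimensional X
  exact h0 id continuous_id _ (h5.comp h4)

theorem exists_galData (hT : IsTateModule A ρ χ) (hF : Faltings A ρ) (hD : Deligne A ρ χ) :
    Nonempty (GalData A ρ χ) := by
  obtain ⟨sh, hsh⟩ := exists_sh A ℚ_[ℓ]
  have hω := riem_nondeg A ℚ_[ℓ]
  obtain ⟨L, hL, hLie, hAd, -⟩ := Y41.RM.lieL' ℚ_[ℓ] (Fin n → ℚ_[ℓ]) Γ ρ
  have hnd : NonDeg L := nonDeg_of_semisimple hF.semisimple hL hLie hAd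
  obtain ⟨P, hP⟩ := exists_proj hnd
  have hkills : ∀ X ∈ L, ∀ (m : ℕ) (φ : Tensor ℚ_[ℓ] (Fin n → ℚ_[ℓ]) m), TateTensor ρ φ →
      KillsTensor X φ := fun X hX => ((hL X).1 hX).2
  have hmult : ∀ X ∈ L, ∃ ν : ℚ_[ℓ], ∀ x y, riem A ℚ_[ℓ] (X x) y + riem A ℚ_[ℓ] x (X y) =
      ν * riem A ℚ_[ℓ] x y := by
    intro X hX
    refine multiplier hsh hω riem_skew' fun B => ?_
    exact tate_map ρ (hkills X hX) (T := dag sh (riem A ℚ_[ℓ])) (Δ := ⊤) inferInstance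
      (fun γ _ B => dag_conj hsh hω hT.weil γ B) B
  refine ⟨⟨L, P, hP, ⟨⊤, inferInstance, fun γ _ B => ?_⟩, hkills,
    fun X hX => (hL X).2 (mem_LT_of_semisimple ρ hF.semisimple hX), hmult, fun X hX => ?_,
    fun Z hZ X hX => ?_⟩⟩
  · refine hP.conj hnd (fun X hX => hAd γ X hX) (fun X hX => ?_) B
    have h1 := hAd γ⁻¹ X hX
    rw [AdE_apply, inv_inv] at h1
    exact h1
  · obtain ⟨ν, hν⟩ := hmult X hX
    refine ⟨ν / 2, fun m c hc => ?_⟩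
    have h1 := hkills X hX _ _ (tate_tens hsh hω ρ χ hT.weil (hD m c hc))
    rw [kills_tens hsh hω _ hν] at h1
    intro v
    have h2 : ∀ l, (frm fun b => (c b : ℚ_[ℓ])) (Function.update v l
        ((X - (ν / 2) • (1 : End ℚ_[ℓ] (Fin n → ℚ_[ℓ]))) (v l))) =
        (frm fun b => (c b : ℚ_[ℓ])) (Function.update v l (X (v l))) -
          ν / 2 * (frm fun b => (c b : ℚ_[ℓ])) v := by
      intro l
      rw [LinearMap.sub_apply, LinearMap.smul_apply, Module.End.one_apply,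
        MultilinearMap.map_update_sub, MultilinearMap.map_update_smul, Function.update_eq_self,
        smul_eq_mul]
    rw [Finset.sum_congr rfl fun l _ => h2 l, Finset.sum_sub_distrib, h1 v, Finset.sum_const,
      Finset.card_univ, Fintype.card_fin, nsmul_eq_mul, Nat.cast_mul, Nat.cast_ofNat]
    ring
  · obtain ⟨Δ, hΔ, hcΔ⟩ := Y220.RM.tfr_abs ρ (conj_cont hT.cont) (comm L) (comm_conj hAd)
      (comm_order hL)
    exact comm_span (hF.endo Z ⟨Δ, hΔ, fun γ hγ => hcΔ γ hγ Z fun W hW => (hZ W hW).symm⟩) hX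

theorem tateMap_comp {S T : End ℚ_[ℓ] (Fin n → ℚ_[ℓ]) →ₗ[ℚ_[ℓ]] End ℚ_[ℓ] (Fin n → ℚ_[ℓ])}
    (hS : IsTateMap ρ ρ S) (hT : IsTateMap ρ ρ T) : IsTateMap ρ ρ (S ∘ₗ T) := by
  obtain ⟨Δ, hΔ, h⟩ := hS
  obtain ⟨Δ', hΔ', h'⟩ := hT
  refine ⟨Δ ⊓ Δ', inferInstance, fun γ hγ B => ?_⟩
  rw [LinearMap.comp_apply, LinearMap.comp_apply, h' γ hγ.2, h γ hγ.1]

/-- The extension of a map of `𝔫` by the projection. -/
noncomputable def ext' {𝔫 : Submodule ℚ_[ℓ] (End ℚ_[ℓ] (Fin n → ℚ_[ℓ]))}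
    {π : End ℚ_[ℓ] (Fin n → ℚ_[ℓ]) →ₗ[ℚ_[ℓ]] End ℚ_[ℓ] (Fin n → ℚ_[ℓ])} (hπ : IsProj 𝔫 π)
    (f : 𝔫 →ₗ[ℚ_[ℓ]] End ℚ_[ℓ] (Fin n → ℚ_[ℓ])) :
    End ℚ_[ℓ] (Fin n → ℚ_[ℓ]) →ₗ[ℚ_[ℓ]] End ℚ_[ℓ] (Fin n → ℚ_[ℓ]) :=
  f ∘ₗ (π.codRestrict 𝔫 hπ.mem)

theorem ext'_apply {𝔫 : Submodule ℚ_[ℓ] (End ℚ_[ℓ] (Fin n → ℚ_[ℓ]))}
    {π : End ℚ_[ℓ] (Fin n → ℚ_[ℓ]) →ₗ[ℚ_[ℓ]] End ℚ_[ℓ] (Fin n → ℚ_[ℓ])} (hπ : IsProj 𝔫 π)
    (f : 𝔫 →ₗ[ℚ_[ℓ]] End ℚ_[ℓ] (Fin n → ℚ_[ℓ])) (B : End ℚ_[ℓ] (Fin n → ℚ_[ℓ])) :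
    ext' hπ f B = f ⟨π B, hπ.mem B⟩ := rfl

/-- **The main inequality.** -/
theorem missing (hT : IsTateModule A ρ χ) (hF : Faltings A ρ) (hD : Deligne A ρ χ) {r : ℕ}
    (𝔫 : Fin r → Submodule ℚ_[ℓ] (End ℚ_[ℓ] (Fin n → ℚ_[ℓ]))) (hinj : Function.Injective 𝔫)
    (hs : ∀ j, IsSimpleFactor (hodgeLie A ℚ_[ℓ]) (𝔫 j))
    (hmiss : ∀ j, ∃ X ∈ 𝔫 j, ∃ (m : ℕ) (φ : Form ℚ_[ℓ] (Fin n → ℚ_[ℓ]) m), IsTate ρ χ φ ∧
      ¬ Kills X φ) :
    ∑ j, finrank ℚ_[ℓ] (centroid (hodgeLie A ℚ_[ℓ]) (𝔫 j)) + finrank ℚ_[ℓ] (hodgeSpan A ℚ_[ℓ] 2) ≤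
      finrank ℚ_[ℓ] (tateForms ρ χ 2) := by
  obtain ⟨G⟩ := exists_galData hT hF hD
  obtain ⟨sh, hsh⟩ := exists_sh A ℚ_[ℓ]
  have hω := riem_nondeg A ℚ_[ℓ]
  have hnd : NonDeg (hodgeLie A ℚ_[ℓ]) := fun X hX h => nondeg A hX h
  have hndj : ∀ j, NonDeg (𝔫 j) := fun j => (hs j).nonDeg hnd
  choose π hπ using fun j => exists_proj (hndj j)
  have had : ∀ j, ∀ X ∈ hodgeLie A ℚ_[ℓ], CommutesAd (π j) X X := fun j X hX =>
    proj_ad (hs j).ideal (hndj j) (hπ j) hX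
  -- the extensions of the elements of the centroids
  have hfad : ∀ j, ∀ f ∈ centroid (hodgeLie A ℚ_[ℓ]) (𝔫 j), ∀ X ∈ hodgeLie A ℚ_[ℓ],
      CommutesAd (ext' (hπ j) f) X X := by
    intro j f hf X hX B
    rw [ext'_apply, ext'_apply, adE_apply X (f _)]
    exact hf.2 X hX ⟨π j B, (hπ j).mem B⟩ ⟨π j (adE X B), (hπ j).mem _⟩ (had j X hX B)
  have hfT : ∀ j, ∀ f ∈ centroid (hodgeLie A ℚ_[ℓ]) (𝔫 j), IsTateMap ρ ρ (ext' (hπ j) f) := by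
    intro j f hf
    refine tateMap_of_quart hsh hω hT.weil (span_le_tate hD 2 (span_of_killed A fun X hX => ?_))
    exact (quart_kills hsh hω (riem_skew A ℚ_[ℓ] hX)).2 (hfad j f hf X hX)
  have hE : ∀ j, ∀ f ∈ centroid (hodgeLie A ℚ_[ℓ]) (𝔫 j),
      quart (riem A ℚ_[ℓ]) (ext' (hπ j) f ∘ₗ G.P) ∈ tateForms ρ χ 2 := fun j f hf =>
    quart_tate hT.weil (tateMap_comp (hfT j f hf) G.tate)
  -- the linear map
  let Ψ : (∀ j, centroid (hodgeLie A ℚ_[ℓ]) (𝔫 j)) →ₗ[ℚ_[ℓ]]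
      (End ℚ_[ℓ] (Fin n → ℚ_[ℓ]) →ₗ[ℚ_[ℓ]] End ℚ_[ℓ] (Fin n → ℚ_[ℓ])) :=
    { toFun := fun f => ∑ j, ext' (hπ j) (f j).1 ∘ₗ G.P
      map_add' := fun f g => by
        rw [← Finset.sum_add_distrib]
        refine Finset.sum_congr rfl fun j _ => LinearMap.ext fun B => ?_
        rfl
      map_smul' := fun c f => by
        rw [RingHom.id_apply, Finset.smul_sum]
        refine Finset.sum_congr rfl fun j _ => LinearMap.ext fun B => ?_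
        rfl }
  have hΨ : ∀ f, Ψ f = ∑ j, ext' (hπ j) (f j).1 ∘ₗ G.P := fun f => rfl
  have hΨT : ∀ f, quart (riem A ℚ_[ℓ]) (Ψ f) ∈ tateForms ρ χ 2 := by
    intro f
    have h4 := map_sum (quartL (riem A ℚ_[ℓ])) (fun j => ext' (hπ j) (f j).1 ∘ₗ G.P) Finset.univ
    have h5 : quart (riem A ℚ_[ℓ]) (Ψ f) =
        ∑ j, quart (riem A ℚ_[ℓ]) (ext' (hπ j) (f j).1 ∘ₗ G.P) := h4
    rw [h5]
    exact Submodule.sum_mem _ fun j _ => hE j _ (f j).2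
  let Φ : ((∀ j, centroid (hodgeLie A ℚ_[ℓ]) (𝔫 j)) × hodgeSpan A ℚ_[ℓ] 2) →ₗ[ℚ_[ℓ]]
      tateForms ρ χ 2 :=
    LinearMap.coprod (((quartL (riem A ℚ_[ℓ])) ∘ₗ Ψ).codRestrict _ hΨT)
      (Submodule.inclusion (span_le_tate hD 2))
  have hΦv : ∀ f h, ((Φ (f, h) : tateForms ρ χ 2) : Form ℚ_[ℓ] (Fin n → ℚ_[ℓ]) 2) =
      quart (riem A ℚ_[ℓ]) (Ψ f) + h.1 := fun f h => rfl
  have hΦ : Function.Injective Φ := by
    rw [injective_iff_map_eq_zero]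
    rintro ⟨f, h⟩ h0
    have h1 : quart (riem A ℚ_[ℓ]) (Ψ f) + h.1 = 0 := by
      rw [← hΦv, h0]
      rfl
    have h2 : quart (riem A ℚ_[ℓ]) (Ψ f) = -h.1 := eq_neg_iff_add_eq_zero.2 h1
    have h3 : ∀ X ∈ hodgeLie A ℚ_[ℓ], CommutesAd (Ψ f) X X := by
      intro X hX
      refine (quart_kills hsh hω (riem_skew A ℚ_[ℓ] hX)).1 ?_
      rw [h2]
      exact killed_of_span A (Submodule.neg_mem _ h.2) hX
    have h4 : ∀ j, f j = 0 := by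
      intro j
      by_contra hc
      have hc' : (f j).1 ≠ 0 := fun h => hc (Subtype.ext h)
      have hfi := centroid_inj (hs j) (f j).2 hc'
      have hm : ∀ i B, ext' (hπ i) (f i).1 (G.P B) ∈ 𝔫 i := fun i B => (f i).2.1 _
      have hsum : ∀ B, π j (Ψ f B) = ext' (hπ j) (f j).1 (G.P B) := by
        intro B
        rw [hΨ, LinearMap.sum_apply, map_sum, Finset.sum_eq_single j]
        · rw [LinearMap.comp_apply, (hπ j).fix _ (hm j B)]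
        · intro i _ hij
          rw [LinearMap.comp_apply, ← (hπ i).fix (ext' (hπ i) (f i).1 (G.P B)) (hm i B),
            proj_proj (hs j) (hs i) (fun h => hij (hinj h).symm) (hndj j) (hπ j) (hπ i)]
        · intro h
          exact absurd (Finset.mem_univ j) h
      have h5 : ∀ X ∈ hodgeLie A ℚ_[ℓ], ∀ B, π j (G.P (X * B - B * X)) =
          X * π j (G.P B) - π j (G.P B) * X := by
        intro X hX B
        have h6 := congrArg (π j) (h3 X hX B)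
        rw [had j X hX (Ψ f B), hsum, hsum, adE_apply X B,
          ← hfad j _ (f j).2 X hX (G.P B), ext'_apply, ext'_apply] at h6
        have h7 := congrArg Subtype.val (hfi h6)
        have h8 := had j X hX (G.P B)
        rw [adE_apply, adE_apply] at h8
        rw [← h8]
        exact h7
      rcases factor_or hnd (hs j) G.hodge G.proj (hπ j) h5 with h6 | h6
      · obtain ⟨X, hX, m, φ, hφ, hK⟩ := hmiss j
        refine hK ?_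
        have h7 := G.kills X (h6 hX) _ _ (tate_tens hsh hω ρ χ hT.weil hφ)
        have h8 : ∀ x y, riem A ℚ_[ℓ] (X x) y + riem A ℚ_[ℓ] x (X y) =
            (0 : ℚ_[ℓ]) * riem A ℚ_[ℓ] x y := fun x y => by
          rw [riem_skew A ℚ_[ℓ] ((hs j).le hX), zero_mul]
        rw [kills_tens hsh hω _ h8] at h7
        intro v
        rw [h7 v, mul_zero, zero_mul]
      · obtain ⟨X, hX, Y, hY, hXY⟩ := (hs j).nonab
        exact hXY (sub_eq_zero.2 (G.central X (h6 X hX) Y ((hs j).le hY)))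
    have h5 : f = 0 := funext h4
    have h6 : h = 0 := by
      have h7 : quart (riem A ℚ_[ℓ]) (Ψ f) = 0 := by
        rw [h5, map_zero]
        exact map_zero (quartL (riem A ℚ_[ℓ]))
      rw [h7, zero_add] at h1
      exact Subtype.ext h1
    rw [h5, h6]
    rfl
  exact finrank_le_of_inj (hodgeLie A ℚ_[ℓ]) 𝔫 (hodgeSpan A ℚ_[ℓ] 2) (tateForms ρ χ 2) Φ hΦ

end Pool.Agent.U980.MF
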